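import Pool.Agent.H46.PX.Tep
import Pool.Agent.H46.PR.Tes

/-!
# The slope of a tie, without the record hypothesis
-/

set_option autoImplicit false

namespace Pool.PT46.PX

open Finset Real
open Pool.Agent.H49.Ent Pool.Agent.H32.Dense Pool.STK Pool.OWN68 Pool.PR46 Pool.PX46
open Pool.BFL (Pb)

/-- The constant of the planar hop. -/
noncomputable def cnP (K : ℕ) (R' Rp R₁ : ℝ) : ℝ :=
  2 + 2 * (3 * R' * Real.log 2 + Real.log (4 * K + 1) + Real.log (7 + 4 * K) + Real.log 105) +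
    Rp * Real.log 2 + 2 * (R₁ * Real.log 2) + R₁ * (Real.log 10 + Real.log 7 + Real.log 2) +
    Real.log 2565 + Real.log 285 + 20

theorem cnP_nonneg (K : ℕ) {R' Rp R₁ : ℝ} (h1 : 0 ≤ R') (h2 : 0 ≤ Rp) (h3 : 0 ≤ R₁) :
    0 ≤ cnP K R' Rp R₁ := by
  have hK0 : (0 : ℝ) ≤ K := Nat.cast_nonneg K
  have g0 := Real.log_nonneg (by norm_num : (1 : ℝ) ≤ 2)
  have g1 := Real.log_nonneg (by linarith : (1 : ℝ) ≤ 4 * K + 1)
  have g2 := Real.log_nonneg (by linarith : (1 : ℝ) ≤ 7 + 4 * K)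
  have g3 := Real.log_nonneg (by norm_num : (1 : ℝ) ≤ 105)
  have g4 := Real.log_nonneg (by norm_num : (1 : ℝ) ≤ 10)
  have g5 := Real.log_nonneg (by norm_num : (1 : ℝ) ≤ 7)
  have g6 := Real.log_nonneg (by norm_num : (1 : ℝ) ≤ 2565)
  have g7 := Real.log_nonneg (by norm_num : (1 : ℝ) ≤ 285)
  unfold cnP
  positivity

/-- **The inequality of a cell of the planar hop.** -/
theorem pl_num {M K Q r₀ : ℕ} {h s B R' Rp R₁ η δ δ₂ ε₀ : ℝ} {a b : ℕ} (hM : 1 ≤ M)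
    (hMQ : M ≤ 2 ^ Q) (hB : 0 < B) (hε₀ : ε₀ = s / 100) (hs0 : 0 < s) (hs1 : s ≤ 1)
    (hBM : (M : ℝ) ≤ B * 2 ^ (ε₀ * Q)) (hR₁ : 0 ≤ R₁)
    (hηR : R' * η = s / 600) (hδf : R' * δ ≤ s / 12000) (hδ₂1 : δ₂ ≤ s / 600)
    (hr₀ : (r₀ : ℝ) ≤ 3 * ε₀ * Q + 5)
    (hQ : 10 * (cnP K R' Rp R₁ + 1) ≤ Q * s)
    (hab : (1 - h) * b * Real.log 2 + s / 2 * Real.log 2 * Q ≤ a * Real.log 2) :
    ((1 - h) * b * Real.log 2 + δ₂ * Q) + 2 * lsF M K B R' η (δ * Q) + Rp * Real.log 2 +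
      Real.log 2565 + Real.log 285 + Real.log (4 * ((2 ^ r₀ : ℕ) : ℝ)) +
      Real.log (16 * ((2 ^ r₀ : ℕ) : ℝ)) < Real.log ((2 : ℝ) ^ a) := by
  have hl2 : 0 < Real.log 2 := Real.log_pos (by norm_num)
  have hl21 : Real.log 2 ≤ 0.7 := by
    have := Real.log_two_lt_d9
    linarith
  have hl22 : 0.69 ≤ Real.log 2 := by
    have := Real.log_two_gt_d9
    linarith
  have hQ0 : (0 : ℝ) ≤ Q := Nat.cast_nonneg Q
  have b1 := lsE_le (K := K) hM hMQ hB hε₀ hs0 hs1 hBM hηR hδf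
  have b4 : Real.log (16 * ((2 ^ r₀ : ℕ) : ℝ)) ≤ 0.021 * s * Q + 7 := by
    have e : (16 : ℝ) * ((2 ^ r₀ : ℕ) : ℝ) = 2 ^ (r₀ + 4) := by
      push_cast
      rw [pow_add]
      norm_num
      ring
    rw [e, Real.log_pow]
    push_cast
    have g1 : ((r₀ : ℝ) + 4) * Real.log 2 ≤ (r₀ + 4) * 0.7 :=
      mul_le_mul_of_nonneg_left hl21 (by positivity)
    rw [hε₀] at hr₀
    linarith
  have b4' : Real.log (4 * ((2 ^ r₀ : ℕ) : ℝ)) ≤ 0.021 * s * Q + 7 := by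
    refine le_trans (Real.log_le_log (by positivity) ?_) b4
    have : (0 : ℝ) < ((2 ^ r₀ : ℕ) : ℝ) := by positivity
    linarith
  have b5 := mul_le_mul_of_nonneg_right hδ₂1 hQ0
  have b6 : s / 2 * 0.69 * Q ≤ s / 2 * Real.log 2 * Q :=
    mul_le_mul_of_nonneg_right (mul_le_mul_of_nonneg_left hl22 (by positivity)) hQ0
  have b7 : 0 ≤ s * Q := by positivity
  have b8 : 0 ≤ R₁ * (Real.log 10 + Real.log 7 + Real.log 2) := by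
    have g4 := Real.log_nonneg (by norm_num : (1 : ℝ) ≤ 10)
    have g5 := Real.log_nonneg (by norm_num : (1 : ℝ) ≤ 7)
    positivity
  have b9 : 0 ≤ R₁ * Real.log 2 := by positivity
  rw [Real.log_pow]
  unfold cnP at hQ
  linarith

/-- **The inequality of a cell of the third hop.** -/
theorem th_num {M K Q r₀ kp : ℕ} {h s sp B R' Rp R₁ η ηp δ δ₂ ε₀ εp : ℝ} {a b : ℕ} (hM : 1 ≤ M)
    (hMQ : M ≤ 2 ^ Q) (hB : 0 < B) (hε₀ : ε₀ = sp / 100) (hsp : 0 < sp) (hs0 : 0 < s)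
    (hs1 : s ≤ 1) (hsps : sp ≤ s)
    (hBM : (M : ℝ) ≤ B * 2 ^ (ε₀ * Q)) (hR₁0 : 0 < R₁) (hRp : 0 ≤ Rp) (hR'0 : R₁ ≤ R')
    (hηR : R' * η = sp / 600) (hδ0 : 0 ≤ δ)
    (hδf : R' * δ ≤ sp / 12000) (hδ₂1 : δ₂ ≤ s / 600) (hηp : R₁ * ηp ≤ s / 600)
    (hεp : R₁ * εp ≤ s / 100) (hkp : (kp : ℝ) ≤ εp * Q + 1)
    (hr₀ : (r₀ : ℝ) ≤ 3 * ε₀ * Q + 5)
    (hQ : 10 * (cnP K R' Rp R₁ + 1) ≤ Q * s)
    (hab : (1 - h) * b * Real.log 2 + s / 2 * Real.log 2 * Q ≤ a * Real.log 2) :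
    ((1 - h) * b * Real.log 2 + δ₂ * Q) + 2 * (lsF M K B R' η (δ * Q) +
      i2 R₁ (δ * Q)) + R₁ * (Real.log 10 + 6 * ηp * Q + (Real.log 7 + kp * Real.log 2)) +
      Real.log 2565 + Real.log (16 * ((2 ^ r₀ : ℕ) : ℝ)) < Real.log ((2 : ℝ) ^ a) := by
  have hl2 : 0 < Real.log 2 := Real.log_pos (by norm_num)
  have hl21 : Real.log 2 ≤ 0.7 := by
    have := Real.log_two_lt_d9
    linarith
  have hl22 : 0.69 ≤ Real.log 2 := by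
    have := Real.log_two_gt_d9
    linarith
  have hQ0 : (0 : ℝ) ≤ Q := Nat.cast_nonneg Q
  have hspQ : sp * Q ≤ s * Q := mul_le_mul_of_nonneg_right hsps hQ0
  have b1 := lsE_le (K := K) hM hMQ hB hε₀ hsp (hsps.trans hs1) hBM hηR hδf
  have b2 : i2 R₁ (δ * Q) ≤ s / 12000 * Q + R₁ * Real.log 2 := by
    unfold i2
    have g1 : R₁ * δ ≤ R' * δ := mul_le_mul_of_nonneg_right hR'0 hδ0
    have g3 := mul_le_mul_of_nonneg_right (g1.trans hδf) hQ0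
    linarith
  have b3 : R₁ * (Real.log 10 + 6 * ηp * Q + (Real.log 7 + kp * Real.log 2)) ≤
      s / 100 * Q + s / 100 * 0.7 * Q + R₁ * (Real.log 10 + Real.log 7 + Real.log 2) := by
    have g1 := mul_le_mul_of_nonneg_right hηp hQ0
    have g2 : R₁ * (kp * Real.log 2) ≤ R₁ * ((εp * Q + 1) * Real.log 2) :=
      mul_le_mul_of_nonneg_left (mul_le_mul_of_nonneg_right hkp hl2.le) hR₁0.le
    have g3 : R₁ * εp * Q * Real.log 2 ≤ s / 100 * Q * Real.log 2 :=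
      mul_le_mul_of_nonneg_right (mul_le_mul_of_nonneg_right hεp hQ0) hl2.le
    have g4 : s / 100 * Q * Real.log 2 ≤ s / 100 * Q * 0.7 :=
      mul_le_mul_of_nonneg_left hl21 (by positivity)
    linarith
  have b4 : Real.log (16 * ((2 ^ r₀ : ℕ) : ℝ)) ≤ 0.021 * s * Q + 7 := by
    have e : (16 : ℝ) * ((2 ^ r₀ : ℕ) : ℝ) = 2 ^ (r₀ + 4) := by
      push_cast
      rw [pow_add]
      norm_num
      ring
    rw [e, Real.log_pow]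
    push_cast
    have g1 : ((r₀ : ℝ) + 4) * Real.log 2 ≤ (r₀ + 4) * 0.7 :=
      mul_le_mul_of_nonneg_left hl21 (by positivity)
    rw [hε₀] at hr₀
    linarith
  have b5 := mul_le_mul_of_nonneg_right hδ₂1 hQ0
  have b6 : s / 2 * 0.69 * Q ≤ s / 2 * Real.log 2 * Q :=
    mul_le_mul_of_nonneg_right (mul_le_mul_of_nonneg_left hl22 (by positivity)) hQ0
  have b7 : 0 ≤ s * Q := by positivity
  have b8 : 0 ≤ Rp * Real.log 2 := by positivity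
  have b9 := Real.log_nonneg (by norm_num : (1 : ℝ) ≤ 285)
  rw [Real.log_pow]
  unfold cnP at hQ
  linarith

/-- **The slope of a tie.** -/
theorem tie_slope (K : ℕ) {h ε : ℝ} (hh : 0 < h) (hh1 : h ≤ 1) (hε : 0 < ε)
    (hε1 : ε ≤ 1) : ∃ ε' : ℝ, 0 < ε' ∧ ∃ δ : ℝ, 0 < δ ∧ ∃ c₀ : ℝ, 0 < c₀ ∧ ∀ α : ℝ, 0 < α →
      ∃ Q₀ : ℕ, ∀ Q ≥ Q₀, ∀ M F MT : ℕ, 1 ≤ M → 1 ≤ F → MT = F * M → M ≤ 2 ^ Q → 2 ^ Q ≤ M * M →
      ∀ B : ℝ, 0 < B → (M : ℝ) ≤ B * (2 : ℝ) ^ (ε' * Q) →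
      ∀ {Ω Λ Γ₁ Γ₂ 𝒜 ℰ 𝒞 𝒟 𝒩₁ 𝒩₂ : Type} [Fintype Ω] {p : Ω → ℝ}, IsLaw p →
      ∀ {L : Ω → Λ} {t : Ω → ℤ} {G₁ : Ω → Γ₁} {G₂ : Ω → Γ₂} {A : Ω → 𝒜} {E : Ω → ℰ}
      {C : Λ → 𝒞} {D : Λ → 𝒟} {N₁ : Λ → 𝒩₁} {N₂ : Λ → 𝒩₂} {u n : Λ → ℤ → ℤ} {du dn : 𝒟 → ℝ},
      TieP p M MT K Q δ c₀ h α B L t G₁ G₂ A E C D N₁ N₂ u n du dn →
      ∃ (ks : Λ → ℝ) (kf : 𝒜 × (ℤ × ℤ) → ℝ), (∀ ω, 0 < p ω → |ks (L ω)| ≤ (2 : ℝ) ^ (ε * Q)) ∧
        (∀ ω, 0 < p ω → |kf (FF L t A u n ω)| ≤ (2 : ℝ) ^ (ε * Q)) ∧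
        Pb p (fun ω => (2 : ℝ) ^ (ε * Q) ≤ |kf (FF L t A u n ω) - ks (L ω)| * M) ≤ ε ∧
        Pb (glue p p G₂ G₂) (Off ((2 : ℝ) ^ (ε * Q)) L D du dn ks) ≤ ε ∧
        Pb (glue p p G₁ G₁) (Off ((2 : ℝ) ^ (ε * Q)) L D du dn ks) ≤ ε := by
  have hl22 : 0.69 ≤ Real.log 2 := by
    have := Real.log_two_gt_d9
    linarith
  -- the constants
  obtain ⟨ε₃, hε₃⟩ : ∃ ε₃ : ℝ, ε₃ = ε / 2 := ⟨_, rfl⟩
  have hε₃0 : 0 < ε₃ := by rw [hε₃]; positivity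
  have hε₃1 : ε₃ ≤ 1 := by rw [hε₃]; linarith
  obtain ⟨s, hs⟩ : ∃ s : ℝ, s = h * ε₃ := ⟨_, rfl⟩
  have hs0 : 0 < s := by rw [hs]; positivity
  have hsε : s ≤ ε₃ := by rw [hs]; nlinarith
  have hs1 : s ≤ 1 := hsε.trans hε₃1
  obtain ⟨J₂, hJ₂, Qa, hQa⟩ := cells_mk hh hh1 hε₃0 hε₃1
  have hJ₂r : (1 : ℝ) ≤ J₂ := by exact_mod_cast hJ₂
  obtain ⟨R₁, hR₁⟩ : ∃ R₁ : ℝ, R₁ = J₂ / ε := ⟨_, rfl⟩
  have hR₁1 : 1 ≤ R₁ := by rw [hR₁, le_div_iff₀ hε]; linarith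
  have hR₁0 : 0 < R₁ := by linarith
  have hR₁m : J₂ * (1 / R₁) = ε := by
    rw [hR₁]
    field_simp
  -- the planar hop
  obtain ⟨εp, hεp⟩ : ∃ εp : ℝ, εp = s / (100 * R₁) := ⟨_, rfl⟩
  have hεp0 : 0 < εp := by rw [hεp]; positivity
  have hεpR : R₁ * εp = s / 100 := by
    rw [hεp]
    field_simp
  have hεps : εp ≤ s / 100 := by
    have : εp * 1 ≤ R₁ * εp := by nlinarith
    linarith
  have hεp1 : εp ≤ 1 := by linarith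
  obtain ⟨sp, hsp⟩ : ∃ sp : ℝ, sp = h * εp := ⟨_, rfl⟩
  have hsp0 : 0 < sp := by rw [hsp]; positivity
  have hspe : sp ≤ εp := by rw [hsp]; nlinarith
  have hsps : sp ≤ s := by linarith
  have hsp1 : sp ≤ 1 := hsps.trans hs1
  obtain ⟨Jp, hJp, Qp, hQp⟩ := cells_mk hh hh1 hεp0 hεp1
  have hJpr : (1 : ℝ) ≤ Jp := by exact_mod_cast hJp
  obtain ⟨Rp, hRp⟩ : ∃ Rp : ℝ, Rp = Jp * (600 * R₁) / s := ⟨_, rfl⟩
  have hRp0 : 0 < Rp := by rw [hRp]; positivity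
  have hηp : R₁ * (Jp * (1 / Rp)) ≤ s / 600 := by
    refine le_of_eq ?_
    rw [hRp]
    field_simp
  obtain ⟨ε₀, hε₀⟩ : ∃ ε₀ : ℝ, ε₀ = sp / 100 := ⟨_, rfl⟩
  have hε₀0 : 0 < ε₀ := by rw [hε₀]; positivity
  have hε₀3 : ε₀ ≤ ε₃ / 100 := by rw [hε₀]; linarith
  have hε₀1 : ε₀ ≤ 1 / 200 := by rw [hε₀]; linarith
  obtain ⟨J₁, hJ₁, Qb, hQb⟩ := cells_mk hh hh1 hε₀0 (by linarith)
  have hJ₁r : (1 : ℝ) ≤ J₁ := by exact_mod_cast hJ₁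
  obtain ⟨R', hR'⟩ : ∃ R' : ℝ, R' = 2 * R₁ + Rp := ⟨_, rfl⟩
  have hR'1 : R₁ ≤ R' := by rw [hR']; linarith
  have hR'p : Rp ≤ R' := by rw [hR']; linarith
  have hR'0 : 1 ≤ R' := hR₁1.trans hR'1
  have hR'2 : 2 ≤ R' := by rw [hR']; linarith
  obtain ⟨η, hη⟩ : ∃ η : ℝ, η = sp / (600 * R') := ⟨_, rfl⟩
  have hη0 : 0 < η := by rw [hη]; positivity
  have hηR : R' * η = sp / 600 := by
    rw [hη]
    field_simp
  have hηε : η ≤ ε / 1200 := by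
    have : η * 1 ≤ R' * η := by nlinarith
    rw [hηR, mul_one] at this
    linarith
  obtain ⟨η₁, hη₁⟩ : ∃ η₁ : ℝ, η₁ = η / 64 := ⟨_, rfl⟩
  have hη₁0 : 0 < η₁ := by rw [hη₁]; positivity
  obtain ⟨R, hR⟩ : ∃ R : ℝ, R = 14 * J₁ / η := ⟨_, rfl⟩
  have hR1 : 1 ≤ R := by
    rw [hR, le_div_iff₀ hη0]
    linarith
  have hR0 : 0 < R := by linarith
  have hJR : J₁ / R = η / 14 := by
    rw [hR]
    field_simp
  obtain ⟨δ₂, hδ₂⟩ : ∃ δ₂ : ℝ, δ₂ = sp / 600 := ⟨_, rfl⟩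
  have hδ₂0 : 0 < δ₂ := by rw [hδ₂]; positivity
  have hδ₂1 : δ₂ ≤ sp / 600 := by rw [hδ₂]
  obtain ⟨c₁, hc₁, d₁, hd₁, Qc, hQc⟩ := nf_up hh.le hh1 hR1 (show 0 < h * ε₀ / 20 by positivity)
  obtain ⟨c₂, hc₂, d₂, hd₂, Qd, hQd⟩ := nf_up hh.le hh1 hR'0 hδ₂0
  obtain ⟨c₀, hc₀⟩ : ∃ c₀ : ℝ, c₀ = min (min c₁ c₂) (η₁ / 2) := ⟨_, rfl⟩
  have hc₀0 : 0 < c₀ := by
    rw [hc₀]
    exact lt_min (lt_min hc₁ hc₂) (by positivity)
  have hca : c₀ ≤ c₁ := by rw [hc₀]; exact (min_le_left _ _).trans (min_le_left _ _)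
  have hcb : c₀ ≤ c₂ := by rw [hc₀]; exact (min_le_left _ _).trans (min_le_right _ _)
  have hcd : c₀ ≤ η₁ / 2 := by rw [hc₀]; exact min_le_right _ _
  obtain ⟨δ, hδ⟩ : ∃ δ : ℝ, δ = min (min (min d₁ d₂) δ₂)
      (min (h * ε₀ / (120 * R)) (sp / (12000 * R'))) := ⟨_, rfl⟩
  have hδ0 : 0 < δ := by
    rw [hδ]
    exact lt_min (lt_min (lt_min hd₁ hd₂) hδ₂0) (lt_min (by positivity)
      (by positivity))
  have hδa : δ ≤ d₁ := by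
    rw [hδ]; exact (min_le_left _ _).trans ((min_le_left _ _).trans (min_le_left _ _))
  have hδb : δ ≤ d₂ := by
    rw [hδ]; exact (min_le_left _ _).trans ((min_le_left _ _).trans (min_le_right _ _))
  have hδe : 6 * R * δ ≤ h * ε₀ / 20 := by
    have g : δ ≤ h * ε₀ / (120 * R) := by
      rw [hδ]; exact (min_le_right _ _).trans (min_le_left _ _)
    rw [le_div_iff₀ (by positivity)] at g
    linarith
  have hδf : R' * δ ≤ sp / 12000 := by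
    have g : δ ≤ sp / (12000 * R') := by
      rw [hδ]; exact (min_le_right _ _).trans (min_le_right _ _)
    rw [le_div_iff₀ (by positivity)] at g
    linarith
  clear hR hδ hη hδ₂ hR' hR₁ hJ₂ hJ₁ hR₁1 hεp hRp hJp
  obtain ⟨c5, hc5⟩ : ∃ c5 : ℝ, c5 = |Real.log (cst (2 * K))| := ⟨_, rfl⟩
  have hK0 : (0 : ℝ) ≤ K := Nat.cast_nonneg K
  have hc50 : 0 ≤ c5 := by rw [hc5]; positivity
  have hc60 := cnP_nonneg K (show 0 ≤ R' by linarith) hRp0.le hR₁0.le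
  refine ⟨ε₀, hε₀0, δ, hδ0, c₀, hc₀0, fun α hα => ?_⟩
  obtain ⟨Qf, hQf⟩ : ∃ Qf : ℕ, Qf = ⌈100 / (h * ε₀) * (c5 + 1) + 10 / sp * (cnP K R' Rp R₁ + 1) +
    (3 * K + 200) / ε₀ + (|Real.log (6 / η₁)| + 1) / α + 200⌉₊ := ⟨_, rfl⟩
  refine ⟨max (max (max Qa Qb) (max Qc Qd)) (max Qp Qf), ?_⟩
  intro Q hQ M F MT hM hF hMT hMQ hMM B hB hBM Ω Λ Γ₁ Γ₂ 𝒜 ℰ 𝒞 𝒟 𝒩₁ 𝒩₂ _ p hp L t G₁ G₂ A E C D N₁ N₂ u
    n du dn H
  have h0 := hp.nonneg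
  have hQ1 : Qa ≤ Q := (le_max_left _ _).trans ((le_max_left _ _).trans ((le_max_left _ _).trans hQ))
  have hQ2 : Qb ≤ Q := (le_max_right _ _).trans ((le_max_left _ _).trans ((le_max_left _ _).trans hQ))
  have hQ3 : Qc ≤ Q := (le_max_left _ _).trans ((le_max_right _ _).trans ((le_max_left _ _).trans hQ))
  have hQ4 : Qd ≤ Q :=
    (le_max_right _ _).trans ((le_max_right _ _).trans ((le_max_left _ _).trans hQ))
  have hQ5 : Qp ≤ Q := (le_max_left _ _).trans ((le_max_right _ _).trans hQ)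
  have hQ6 : Qf ≤ Q := (le_max_right _ _).trans ((le_max_right _ _).trans hQ)
  obtain ⟨Q1, Q2, Q3, Q4, Q5⟩ : 100 * (c5 + 1) ≤ Q * (h * ε₀) ∧
      10 * (cnP K R' Rp R₁ + 1) ≤ Q * sp ∧ 3 * (K : ℝ) + 200 ≤ Q * ε₀ ∧
      |Real.log (6 / η₁)| + 1 ≤ Q * α ∧ (200 : ℝ) ≤ Q := by
    have hQr : 100 / (h * ε₀) * (c5 + 1) + 10 / sp * (cnP K R' Rp R₁ + 1) +
        (3 * K + 200) / ε₀ + (|Real.log (6 / η₁)| + 1) / α + 200 ≤ Q :=
      (Nat.le_ceil _).trans (by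
        rw [← hQf]
        exact_mod_cast hQ6)
    have q1 : 0 ≤ 100 / (h * ε₀) * (c5 + 1) := by positivity
    have q2 : 0 ≤ 10 / sp * (cnP K R' Rp R₁ + 1) := by positivity
    have q3 : 0 ≤ (3 * (K : ℝ) + 200) / ε₀ := by positivity
    have q4 : 0 ≤ (|Real.log (6 / η₁)| + 1) / α := by positivity
    clear hQa hQb hQc hQd hQp H
    have Q1 : 100 / (h * ε₀) * (c5 + 1) ≤ Q := by linarith only [hQr, q1, q2, q3, q4]
    have Q2 : 10 / sp * (cnP K R' Rp R₁ + 1) ≤ Q := by linarith only [hQr, q1, q2, q3, q4]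
    have Q3 : (3 * (K : ℝ) + 200) / ε₀ ≤ Q := by linarith only [hQr, q1, q2, q3, q4]
    have Q4 : (|Real.log (6 / η₁)| + 1) / α ≤ Q := by linarith only [hQr, q1, q2, q3, q4]
    have Q5 : (200 : ℝ) ≤ Q := by linarith only [hQr, q1, q2, q3, q4]
    rw [div_mul_eq_mul_div, div_le_iff₀ (by positivity)] at Q1 Q2
    rw [div_le_iff₀ (by positivity)] at Q3 Q4
    exact ⟨Q1, Q2, Q3, Q4, Q5⟩
  have hQn : 200 ≤ Q := by exact_mod_cast Q5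
  have hQ0 : (0 : ℝ) < Q := by linarith only [Q5]
  have Q2' : 10 * (cnP K R' Rp R₁ + 1) ≤ Q * s :=
    Q2.trans (mul_le_mul_of_nonneg_left hsps hQ0.le)
  have hδQ : (0 : ℝ) ≤ δ * Q := by positivity
  -- the cells of the hops
  obtain ⟨k₀, a, b, hk1, hk2, hab, hcv⟩ := hQb Q hQ2
  obtain ⟨k₂, a', b', hk1', hk2', hab', hcv'⟩ := hQa Q hQ1
  obtain ⟨kp, ap, bp, hk1p, hk2p, habp, hcvp⟩ := hQp Q hQ5
  obtain ⟨r₀, hr1, hr2, hr3, hr4, hr5, hr6⟩ := tie_r hM hMM hB hε₀0 hε₀1 hQn Q3 hBM hk2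
  obtain ⟨z1, z2, z3, z4, z5, z6, z7⟩ := tie_sz (ε := ε) hM hMQ hB hε1 hε₃ hε₀0 hε₀3 hQn
    (by linarith only [Q3, hK0]) hBM hk2 hk1' hk2' hr1
  have z4p : 4 * ((2 ^ r₀ : ℕ) : ℝ) ≤ 2 ^ kp := by
    have e : (4 : ℝ) * ((2 ^ r₀ : ℕ) : ℝ) = 2 ^ (r₀ + 2) := by
      push_cast
      rw [pow_add]
      ring
    rw [e]
    refine pow_le_pow_right₀ (by norm_num) ?_
    have g1 : (r₀ : ℝ) + 2 ≤ kp := by
      have g2 : 100 * ε₀ = sp := by rw [hε₀]; ring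
      have g3 : ε₀ * 100 ≤ εp := by linarith only [g2, hspe]
      have g4 := mul_le_mul_of_nonneg_right g3 hQ0.le
      have g5 : 200 ≤ Q * ε₀ := by linarith only [Q3, hK0]
      linarith only [g4, g5, hr1, hk1p]
    exact_mod_cast g1
  have hcel : Cells p M K (2 ^ k₀) R (δ * Q) L t C D u n J₁ (fun j => (2 : ℝ) ^ (a j))
      (fun j => (1 - h) * b j * Real.log 2 + h * ε₀ / 20 * Q) (fun j => 2 ^ (b j)) := by
    refine ⟨fun j _ => one_le_pow₀ (by norm_num), fun x hx1 hx2 => ?_, fun j hj q hq hqd => ?_,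
      fun j hj => ?_⟩
    · obtain ⟨j, hj, hj1, hj2⟩ := hcv x hx1 (by
        have h2Q : (2 : ℝ) * 2 ^ Q ≤ 2 ^ (2 * Q) := by
          rw [← pow_succ']
          exact pow_le_pow_right₀ (by norm_num) (by omega)
        have hMQr : (M : ℝ) ≤ 2 ^ Q := by exact_mod_cast hMQ
        linarith only [hx2, h2Q, hMQr])
      refine ⟨j, hj, hj1, hj2.trans (le_of_eq ?_)⟩
      push_cast
      rfl
    · refine le_trans (CH_mono_cond hq.nonneg fun ω ω' _ _ hz => ?_)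
        (hQc Q hQ3 hp hδa hca H.nf (b j) (hab j hj).2.2.1 q hq hqd)
      have z := Prod.ext_iff.mp hz
      have z2 := Prod.ext_iff.mp z.2
      exact Prod.ext z.1 (Prod.ext z2.1 (Prod.ext_iff.mp z2.2).1)
    · rw [Real.log_pow]
      have g1 := (hab j hj).2.2.2
      have g2 : 6 * R * (δ * Q) ≤ h * ε₀ / 20 * Q := by
        have := mul_le_mul_of_nonneg_right hδe hQ0.le
        linarith only [this]
      have g3 : Real.log (cst (2 * K)) ≤ c5 := by rw [hc5]; exact le_abs_self _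
      have g4 : h * ε₀ / 2 * 0.69 * Q ≤ h * ε₀ / 2 * Real.log 2 * Q := by
        refine mul_le_mul_of_nonneg_right ?_ hQ0.le
        exact mul_le_mul_of_nonneg_left hl22 (by positivity)
      have g5 : 0 < h * ε₀ * Q := by positivity
      linarith only [g1, g2, g3, g4, g5, Q1, hc50]
  -- alive
  have hal : Pb (glue p p G₂ G₂) (fun w => |du (D (L w.2)) - du (D (L w.1))| < B) ≤ η₁ := by
    refine alive_Pb hp G₂ (fun ω => du (D (L ω))) hB hη₁0 fun S hS => ?_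
    refine lt_of_lt_of_le ?_ (H.al S (hcd.trans hS))
    have := le_abs_self (Real.log (6 / η₁))
    linarith only [this, Q4]
  obtain ⟨ks, kf, f1, f2, f3, f4, f5⟩ := tie_core hp hM hF hMT hMQ Nat.one_le_two_pow hr2
    (by omega : 3 ≤ Q) hR0 hδQ H.rcs H.d1 H.d2 hB hal hcel (by positivity) hr3 hη0.le
    (by rw [hJR]; linarith only [hη0, hη₁0, hJR, hη₁]) hr4 hR'2
    (by rw [hηR]; linarith only [hsp1]) hR₁0 hR'1 H.ac H.ca H.fm hr5 z2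
    -- the planar hop
    hRp0 hR'p (Jp := Jp) (kp := kp)
    (fun j => (2 : ℝ) ^ (ap j)) (fun j => (1 - h) * bp j * Real.log 2 + δ₂ * Q)
    (fun j => 2 ^ (bp j))
    (fun j hj => by
      have g1 : ((2 ^ r₀ : ℕ) : ℝ) ≤ ((2 ^ (bp j) : ℕ) : ℝ) := by
        have g2 : (2 : ℝ) ^ kp ≤ 2 ^ (bp j) := pow_le_pow_right₀ (by norm_num) (habp j hj).2.1
        have g3 : (0 : ℝ) ≤ ((2 ^ r₀ : ℕ) : ℝ) := Nat.cast_nonneg _
        have g4 : ((2 ^ (bp j) : ℕ) : ℝ) = 2 ^ (bp j) := by push_cast; rfl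
        rw [g4]
        linarith only [g2, g3, z4p]
      exact_mod_cast g1)
    (fun j hj => z4p.trans (pow_le_pow_right₀ (by norm_num) (habp j hj).1))
    (fun x hx1 hx2 => by
      obtain ⟨j, hj, hj1, hj2⟩ := hcvp x hx1 (hx2.trans z3)
      refine ⟨j, hj, hj1, hj2.trans (le_of_eq ?_)⟩
      push_cast
      rfl)
    (fun j hj q hq hqd => hQd Q hQ4 hp hδb hcb H.nf (bp j) (habp j hj).2.2.1 q hq hqd)
    (fun j hj => pl_num hM hMQ hB hε₀ hsp0 hsp1 hBM hR₁0.le hηR hδf hδ₂1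
      hr1 Q2 (by rw [hsp]; exact (habp j hj).2.2.2))
    -- the third hop
    (J₂ := J₂) (V₂ := 2 ^ k₂)
    (fun j => (2 : ℝ) ^ (a' j)) (fun j => (1 - h) * b' j * Real.log 2 + δ₂ * Q)
    (fun j => 2 ^ (b' j))
    (fun j hj => by
      have g1 : ((2 ^ r₀ : ℕ) : ℝ) ≤ ((2 ^ (b' j) : ℕ) : ℝ) := by
        have g2 : (2 : ℝ) ^ k₂ ≤ 2 ^ (b' j) := pow_le_pow_right₀ (by norm_num) (hab' j hj).2.1
        have g3 : (0 : ℝ) ≤ ((2 ^ r₀ : ℕ) : ℝ) := Nat.cast_nonneg _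
        have g4 : ((2 ^ (b' j) : ℕ) : ℝ) = 2 ^ (b' j) := by push_cast; rfl
        rw [g4]
        linarith only [g2, g3, z4]
      exact_mod_cast g1)
    (fun j hj => z4.trans (pow_le_pow_right₀ (by norm_num) (hab' j hj).1))
    (fun x hx1 hx2 => by
      obtain ⟨j, hj, hj1, hj2⟩ := hcv' x hx1 (hx2.trans z3)
      refine ⟨j, hj, hj1, hj2.trans (le_of_eq ?_)⟩
      push_cast
      rfl)
    (fun j hj q hq hqd => hQd Q hQ4 hp hδb hcb H.nf (b' j) (hab' j hj).2.2.1 q hq hqd)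
    (fun j hj => th_num hM hMQ hB hε₀ hsp0 hs0 hs1 hsps hBM hR₁0 hRp0.le hR'1 hηR hδ0.le hδf
      (by linarith only [hδ₂1, hsps]) hηp hεpR.le hk2p hr1 Q2'
      (by rw [hs]; exact (hab' j hj).2.2.2))
  refine ⟨ks, kf, fun ω hω => (f1 ω hω).trans z1, fun ω hω => (f2 ω hω).trans z1, ?_, ?_, ?_⟩
  · rw [hR₁m] at f3
    exact (Pb_imp h0 fun ω _ hw => z5.trans hw).trans f3
  · refine (Pb_imp (P1_law hp G₂).nonneg fun w _ hw hA => ?_).trans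
      (f4.trans (by linarith only [hηε, hε]))
    obtain ⟨-, a2, -⟩ := hA
    unfold Off at hw
    exact absurd (a2.trans z6) (not_le.mpr hw)
  · refine (Pb_imp (P1_law hp G₁).nonneg fun w _ hw => ?_).trans (f5.trans (by
      rw [hJR]
      linarith only [hηε, hε, hη0]))
    exact z7.trans_lt hw

end Pool.PT46.PX
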