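import Pool.Agent.H46.PX.Plh
import Pool.Agent.H46.PR.Few

/-!
# The planar hop: all cells, the code of the slope
-/

set_option autoImplicit false

namespace Pool.PX46

open Finset Real
open Pool.Agent.H49.Ent Pool.Agent.H32.Dense Pool.STK Pool.OWN68 Pool.PR46
open Pool.BFL (Pb)

section main

variable {Ω Λ 𝒞 : Type} [Fintype Ω] {p : Ω → ℝ} {M r : ℕ} {R e₁ : ℝ}
    {L : Ω → Λ} {t : Ω → ℤ} {C : Λ → 𝒞} {u n : Λ → ℤ → ℤ} {ks : Λ → ℝ}

/-- **All cells.** -/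
theorem pl_all (hp : IsLaw p) (hM : 1 ≤ M) (hr : 1 ≤ r)
    (lf : ∀ q : Ω → ℝ, IsLaw q → (∀ ω, q ω ≤ R * p ω) → Real.log (2 * M + 1) - e₁ ≤
      CH q (fun ω => u (L ω) (t ω)) (VV M r L t C (fun _ => ()) u n ks))
    {R₁ : ℝ} (hR₁ : 0 < R₁) (hR₁R : R₁ ≤ R)
    {κ : ℝ} (hkb : ∀ ω, 0 < p ω → |ks (L ω)| ≤ κ) (hκ : 2 * κ ≤ 8 * r)
    {J : ℕ} {V : ℝ} (Vs Us : ℕ → ℝ) (ms : ℕ → ℕ) (hms : ∀ j < J, r ≤ ms j)
    (hVs : ∀ j < J, 4 * r ≤ Vs j)
    (hcov : ∀ x : ℝ, V ≤ x → x ≤ 2 * κ * M → ∃ j < J, Vs j ≤ x ∧ x ≤ ms j)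
    (hnf : ∀ j < J, ∀ q : Ω → ℝ, IsLaw q → (∀ ω, q ω ≤ R * p ω) →
      CH q (fun ω => n (L ω) (t ω)) (fun ω => ((n (L ω) (t ω) / (ms j : ℤ), u (L ω) (t ω)),
        (t ω, C (L ω)))) ≤ Us j)
    (hbig : ∀ j < J, Us j + 2 * e₁ + R₁ * Real.log 2 + Real.log 2565 + Real.log 285 +
      Real.log (4 * r) + Real.log (16 * r) < Real.log (Vs j)) :
    Pb (glue p p (GP L t C u n) (GP L t C u n)) (fun w => V ≤ |ks (L w.2) - ks (L w.1)| * M) ≤
      J * (1 / R₁) := by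
  have hM0 : (0 : ℝ) < M := by
    have : (1 : ℝ) ≤ M := by exact_mod_cast hM
    linarith
  have hP := P1_law hp (GP L t C u n)
  refine cells_all hP.nonneg (fun w => |ks (L w.2) - ks (L w.1)| * M) (X := 2 * κ * M) Vs
    (fun j => (ms j : ℝ)) hcov (fun w hw => ?_) fun j hj => ?_
  · obtain ⟨a1, a2, -⟩ := P1_pos hp _ hw
    have h1 := abs_sub (ks (L w.2)) (ks (L w.1))
    have h2 := hkb _ a1
    have h3 := hkb _ a2
    exact mul_le_mul_of_nonneg_right (by linarith) hM0.le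
  · rcases le_or_gt (Vs j) (8 * r * M) with h1 | h1
    · exact (pl_cell hp hM hr lf hR₁ hR₁R (hms j hj) (hVs j hj) h1 (hnf j hj)
        (hbig j hj)).le
    · have h2 : Pb (glue p p (GP L t C u n) (GP L t C u n)) (fun w =>
          Vs j ≤ |ks (L w.2) - ks (L w.1)| * M ∧ |ks (L w.2) - ks (L w.1)| * M ≤ ms j) ≤
          Pb (glue p p (GP L t C u n) (GP L t C u n)) (fun _ => False) := by
        refine Pb_imp hP.nonneg fun w hw hh => ?_
        obtain ⟨a1, a2, -⟩ := P1_pos hp _ hw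
        have h3 := abs_sub (ks (L w.2)) (ks (L w.1))
        have h4 := hkb _ a1
        have h5 := hkb _ a2
        have h6 : |ks (L w.2) - ks (L w.1)| * M ≤ 8 * r * M :=
          mul_le_mul_of_nonneg_right (by linarith) hM0.le
        linarith [hh.1]
      refine h2.trans ?_
      have h3 : Pb (glue p p (GP L t C u n) (GP L t C u n)) (fun _ => False) = 0 := by
        classical
        rw [← Pb_sum]
        exact Finset.sum_eq_zero fun w _ => if_neg (fun h => h)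
      rw [h3]
      positivity

/-- **The code of the slope is few given the record.** -/
theorem pl_few {Γ T : Type} (hp : IsLaw p) {Q k₀ : ℕ}
    (hM : 1 ≤ M) (hMQ : M ≤ 2 ^ Q) (hr : 1 ≤ r) (hQ : 3 ≤ Q) {G : Ω → Γ}
    {κ η : ℝ} (hκ : κ ≤ 2 ^ Q) (hkb : ∀ ω, 0 < p ω → |ks (L ω)| ≤ κ)
    (hgd : Pb (glue p p G G) (fun w => (2 : ℝ) ^ k₀ ≤ |ks (L w.2) - ks (L w.1)| * M) ≤ η)
    (hη : 0 ≤ η) (F : Ω → T) (hF : ∀ ω ω', 0 < p ω → 0 < p ω' → F ω = F ω' → G ω = G ω') :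
    CH p (fun ω => kq M r (ks (L ω))) F ≤ Real.log 10 + 6 * η * Q + (Real.log 7 +
      k₀ * Real.log 2) := by
  have h0 := hp.nonneg
  have hMr : (1 : ℝ) ≤ M := by exact_mod_cast hM
  have hM0 : (0 : ℝ) < M := by linarith
  have hrr : (1 : ℝ) ≤ r := by exact_mod_cast hr
  have hr0 : (0 : ℝ) < r := by linarith
  have hMQr : (M : ℝ) ≤ 2 ^ Q := by exact_mod_cast hMQ
  have hQr : (3 : ℝ) ≤ Q := by exact_mod_cast hQ
  obtain ⟨W, hW⟩ : ∃ W : ℝ, W = 2 ^ k₀ := ⟨_, rfl⟩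
  have hW1 : 1 ≤ W := by rw [hW]; exact one_le_pow₀ (by norm_num)
  have hW0 : 0 < W := by linarith
  obtain ⟨x, hx⟩ : ∃ x : Ω → ℝ, x = fun ω => ks (L ω) * M / r := ⟨_, rfl⟩
  have hP1 := P1_law hp G
  have h1 : Pb (glue p p G G) (fun w => W < |x w.2 - x w.1|) ≤ η := by
    refine (Pb_imp hP1.nonneg fun w _ hw => ?_).trans hgd
    rw [hx] at hw
    have e : ks (L w.2) * M / r - ks (L w.1) * M / r = (ks (L w.2) - ks (L w.1)) * M / r := by ring
    dsimp only at hw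
    rw [e, abs_div, abs_mul, abs_of_pos hM0, abs_of_pos hr0, lt_div_iff₀ hr0] at hw
    rw [← hW]
    nlinarith
  have h2 := few_ent hp G x (w₀ := W) (m₀ := 2 * W) (δ := η) (A := 2 ^ (2 * Q)) (by positivity)
    (by linarith) (by positivity) h1 (fun ω ω' hω hω' _ => by
      have hb : ∀ ω, 0 < p ω → |x ω| ≤ 2 ^ (2 * Q) := by
        intro ω hω
        rw [hx]
        dsimp only
        rw [abs_div, abs_mul, abs_of_pos hM0, abs_of_pos hr0, div_le_iff₀ hr0]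
        have g1 := hkb ω hω
        have g2 : |ks (L ω)| * M ≤ 2 ^ Q * 2 ^ Q :=
          mul_le_mul (g1.trans hκ) hMQr hM0.le (by positivity)
        rw [← pow_add, ← two_mul] at g2
        have g3 : (2 : ℝ) ^ (2 * Q) * 1 ≤ 2 ^ (2 * Q) * r :=
          mul_le_mul_of_nonneg_left hrr (by positivity)
        linarith
      have := abs_sub (x ω) (x ω')
      have a1 := hb ω hω
      have a2 := hb ω' hω'
      have a3 : (0 : ℝ) < 2 ^ (2 * Q) := by positivity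
      nlinarith)
  have h3 : Real.log (2 * 2 ^ (2 * Q) + 3) ≤ 3 * Q := by
    have g1 : (2 : ℝ) * 2 ^ (2 * Q) + 3 ≤ 2 ^ (2 * Q + 3) := by
      rw [pow_add]
      have : (1 : ℝ) ≤ 2 ^ (2 * Q) := one_le_pow₀ (by norm_num)
      linarith
    refine (Real.log_le_log (by positivity) g1).trans ?_
    rw [Real.log_pow]
    push_cast
    have hl : Real.log 2 ≤ 1 := by
      have := Real.log_two_lt_d9
      linarith
    have : (2 * (Q : ℝ) + 3) * Real.log 2 ≤ (2 * Q + 3) * 1 :=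
      mul_le_mul_of_nonneg_left hl (by positivity)
    linarith
  have h4 : CH p (fun ω => ⌊x ω / (2 * W)⌋) G ≤ Real.log 10 + 6 * η * Q := by
    have : 2 * η * Real.log (2 * 2 ^ (2 * Q) + 3) ≤ 2 * η * (3 * Q) :=
      mul_le_mul_of_nonneg_left h3 (by positivity)
    linarith
  have h5 : CH p (fun ω => kq M r (ks (L ω))) (fun ω => (⌊x ω / (2 * W)⌋, F ω)) ≤
      Real.log (7 * W) := by
    refine CH_int_const hp _ _ (B := 2 * W + 1) ?_ (by linarith) (by positivity)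
    intro ω ω' hω hω' hz
    have z : ⌊x ω / (2 * W)⌋ = ⌊x ω' / (2 * W)⌋ := (Prod.ext_iff.mp hz).1
    have g : |x ω - x ω'| ≤ 2 * W := by
      have f1 := Int.floor_le (x ω / (2 * W))
      have f2 := Int.lt_floor_add_one (x ω / (2 * W))
      have f3 := Int.floor_le (x ω' / (2 * W))
      have f4 := Int.lt_floor_add_one (x ω' / (2 * W))
      rw [z] at f1 f2
      have f5 : |x ω / (2 * W) - x ω' / (2 * W)| ≤ 1 := by
        rw [abs_le]
        constructor <;> linarith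
      rw [← sub_div, abs_div, abs_of_pos (by positivity : (0 : ℝ) < 2 * W),
        div_le_iff₀ (by positivity)] at f5
      linarith
    have e : ∀ ω, kq M r (ks (L ω)) = ⌊x ω⌋ := fun ω => by
      rw [hx]
      rfl
    rw [e, e]
    push_cast
    have f1 := Int.floor_le (x ω)
    have f2 := Int.lt_floor_add_one (x ω)
    have f3 := Int.floor_le (x ω')
    have f4 := Int.lt_floor_add_one (x ω')
    obtain ⟨f5, f6⟩ := abs_le.mp g
    rw [abs_le]
    constructor <;> linarith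
  have h6 := CH_le_add h0 (fun ω => kq M r (ks (L ω))) (fun ω => ⌊x ω / (2 * W)⌋) F
  have h7 : CH p (fun ω => ⌊x ω / (2 * W)⌋) F ≤ CH p (fun ω => ⌊x ω / (2 * W)⌋) G :=
    CH_mono_cond h0 fun ω ω' a b hz => hF ω ω' a b hz
  have h8 : Real.log (7 * W) = Real.log 7 + k₀ * Real.log 2 := by
    rw [Real.log_mul (by norm_num) hW0.ne', hW, Real.log_pow]
  linarith

end main

end Pool.PX46
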