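import Pool.Agent.H46.PR.Thr4

/-!
# The planar hop

`pl_cell`: two copies over the context and the position `(t, C, u, n)`. The height `u` is full on the
leaf of a line of slope `ks`. If the height `n` is nonfull given the height `u`, then the slopes of the
two lines are near. So the slope is known from the context and the position alone.
-/

set_option autoImplicit false

namespace Pool.PX46

open Finset Real
open Pool.Agent.H49.Ent Pool.Agent.H32.Dense Pool.STK Pool.OWN68 Pool.PR46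
open Pool.BFL (Pb)

/-- Context and position. -/
def GP {Ω Λ 𝒞 : Type} (L : Ω → Λ) (t : Ω → ℤ) (C : Λ → 𝒞) (u n : Λ → ℤ → ℤ) (ω : Ω) :
    (ℤ × 𝒞) × (ℤ × ℤ) := ((t ω, C (L ω)), (u (L ω) (t ω), n (L ω) (t ω)))

section main

variable {Ω Λ 𝒞 : Type} [Fintype Ω] {p : Ω → ℝ} {M r : ℕ} {R e₁ : ℝ}
    {L : Ω → Λ} {t : Ω → ℤ} {C : Λ → 𝒞} {u n : Λ → ℤ → ℤ} {ks : Λ → ℝ}

/-- **One cell.** -/
theorem pl_cell (hp : IsLaw p) (hM : 1 ≤ M) (hr : 1 ≤ r)
    (lf : ∀ q : Ω → ℝ, IsLaw q → (∀ ω, q ω ≤ R * p ω) → Real.log (2 * M + 1) - e₁ ≤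
      CH q (fun ω => u (L ω) (t ω)) (VV M r L t C (fun _ => ()) u n ks))
    {R₁ : ℝ} (hR₁ : 0 < R₁) (hR₁R : R₁ ≤ R)
    {m : ℕ} (hrm : r ≤ m) {V Um : ℝ} (hV : 4 * r ≤ V) (hVM : V ≤ 8 * r * M)
    (hnf : ∀ q : Ω → ℝ, IsLaw q → (∀ ω, q ω ≤ R * p ω) →
      CH q (fun ω => n (L ω) (t ω)) (fun ω => ((n (L ω) (t ω) / (m : ℤ), u (L ω) (t ω)),
        (t ω, C (L ω)))) ≤ Um)
    (hbig : Um + 2 * e₁ + R₁ * Real.log 2 + Real.log 2565 + Real.log 285 + Real.log (4 * r) +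
      Real.log (16 * r) < Real.log V) :
    Pb (glue p p (GP L t C u n) (GP L t C u n)) (fun w => V ≤ |ks (L w.2) - ks (L w.1)| * M ∧
      |ks (L w.2) - ks (L w.1)| * M ≤ m) < 1 / R₁ := by
  classical
  by_contra hcon
  push Not at hcon
  have h0 := hp.nonneg
  have hMr : (1 : ℝ) ≤ M := by exact_mod_cast hM
  have hM0 : (0 : ℝ) < M := by linarith
  have hrr : (1 : ℝ) ≤ r := by exact_mod_cast hr
  have hr0 : (0 : ℝ) < r := by linarith
  have hmr : (r : ℝ) ≤ m := by exact_mod_cast hrm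
  have hm0 : (0 : ℝ) < m := by linarith
  have hm1 : 1 ≤ m := hr.trans hrm
  have hV0 : 0 < V := by linarith
  obtain ⟨S, hS⟩ : ∃ S : Ω × Ω → Prop, S = fun w => V ≤ |ks (L w.2) - ks (L w.1)| * M ∧
    |ks (L w.2) - ks (L w.1)| * M ≤ m := ⟨_, rfl⟩
  rw [← hS] at hcon
  obtain ⟨F, hF⟩ : ∃ F, F = GP L t C u n := ⟨_, rfl⟩
  rw [← hF] at hcon
  obtain ⟨P, hP⟩ : ∃ P, P = glue p p F F := ⟨_, rfl⟩
  have hPl : IsLaw P := by rw [hP]; exact P1_law hp F
  have hP1 : Marg P p (fun w => w.1) := by rw [hP]; exact P1_f hp F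
  have hP2 : Marg P p (fun w => w.2) := by rw [hP]; exact P1_s hp F
  rw [← hP] at hcon
  have hl0 : 0 < law P S True := by
    rw [Pool.NFD.Pb_law]
    exact lt_of_lt_of_le (by positivity) hcon
  obtain ⟨Q, hQ⟩ : ∃ Q, Q = cond P S True := ⟨_, rfl⟩
  have hQl : IsLaw Q := by
    rw [hQ]
    exact ⟨cond_nonneg hPl.nonneg S True, sum_cond P S hl0.ne'⟩
  obtain ⟨q₁, hq₁1, hq₁2, hq₁3⟩ := ev_marg hPl hP1 (S := S) hR₁ hcon
  obtain ⟨q₂, hq₂1, hq₂2, hq₂3⟩ := ev_marg hPl hP2 (S := S) hR₁ hcon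
  rw [← hQ] at hq₁3 hq₂3
  have hQ0 := hQl.nonneg
  have hsup : ∀ w, 0 < Q w → 0 < p w.1 ∧ 0 < p w.2 ∧ (t w.1 = t w.2 ∧ C (L w.1) = C (L w.2)) ∧
      u (L w.1) (t w.1) = u (L w.2) (t w.2) ∧ n (L w.1) (t w.1) = n (L w.2) (t w.2) ∧
      V ≤ |ks (L w.2) - ks (L w.1)| * M ∧ |ks (L w.2) - ks (L w.1)| * M ≤ m := by
    intro w hw
    rw [hQ] at hw
    obtain ⟨h1, h2⟩ := (cond_pos_iff hPl.nonneg S True w).mp hw
    rw [hP] at h1
    have h3 : S w := of_eq_true h2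
    rw [hS] at h3
    obtain ⟨a1, a2, a3⟩ := P1_pos hp F h1
    rw [hF] at a3
    have a4 := Prod.ext_iff.mp a3
    have a5 := Prod.ext_iff.mp a4.2
    have a6 := Prod.ext_iff.mp a4.1
    exact ⟨a1, a2, ⟨a6.1, a6.2⟩, a5.1, a5.2, h3.1, h3.2⟩
  -- names
  obtain ⟨U, hU⟩ : ∃ U : Ω × Ω → ℤ, U = fun w => u (L w.1) (t w.1) := ⟨_, rfl⟩
  obtain ⟨Nn, hNn⟩ : ∃ Nn : Ω × Ω → ℤ, Nn = fun w => n (L w.1) (t w.1) := ⟨_, rfl⟩
  obtain ⟨um, hum⟩ : ∃ um : Ω × Ω → ℤ, um = fun w => U w / (M : ℤ) := ⟨_, rfl⟩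
  obtain ⟨k₁, hk₁⟩ : ∃ k : Ω × Ω → ℤ, k = fun w => kq M r (ks (L w.1)) := ⟨_, rfl⟩
  obtain ⟨k₂, hk₂⟩ : ∃ k : Ω × Ω → ℤ, k = fun w => kq M r (ks (L w.2)) := ⟨_, rfl⟩
  obtain ⟨c₁, hc₁⟩ : ∃ c : Ω × Ω → ℤ, c = fun w => lc M r (k₁ w) (U w) (Nn w) := ⟨_, rfl⟩
  obtain ⟨c₂, hc₂⟩ : ∃ c : Ω × Ω → ℤ, c = fun w => lc M r (k₂ w) (U w) (Nn w) := ⟨_, rfl⟩
  obtain ⟨tt, htt⟩ : ∃ tt : Ω × Ω → ℤ, tt = fun w => Pool.PR46.kt M r m (k₂ w) := ⟨_, rfl⟩
  obtain ⟨Y, hY⟩ : ∃ Y : Ω × Ω → ℤ, Y = fun w => (c₂ w * r) / (m : ℤ) := ⟨_, rfl⟩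
  obtain ⟨Zc, hZc⟩ : ∃ Zc : Ω × Ω → ℤ × 𝒞, Zc = fun w => (t w.1, C (L w.1)) := ⟨_, rfl⟩
  -- real facts of one sample
  have hone : ∀ w, 0 < Q w →
      V / 2 ≤ |kr M r (k₂ w) - kr M r (k₁ w)| * M ∧ |kr M r (k₂ w) - kr M r (k₁ w)| * M ≤ 3 * m := by
    intro w hw
    obtain ⟨-, -, -, -, -, a1, a2⟩ := hsup w hw
    have b1 := kq_near hM hr (ks (L w.1))
    have b2 := kq_near hM hr (ks (L w.2))
    have e1 : k₁ w = kq M r (ks (L w.1)) := by rw [hk₁]
    have e2 : k₂ w = kq M r (ks (L w.2)) := by rw [hk₂]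
    rw [← e1] at b1
    rw [← e2] at b2
    rw [le_div_iff₀ hM0] at b1 b2
    have g1 : |ks (L w.2) - ks (L w.1)| ≤ |kr M r (k₂ w) - kr M r (k₁ w)| +
        (|ks (L w.1) - kr M r (k₁ w)| + |ks (L w.2) - kr M r (k₂ w)|) := by
      have e : ks (L w.2) - ks (L w.1) = (kr M r (k₂ w) - kr M r (k₁ w)) -
        ((ks (L w.1) - kr M r (k₁ w)) - (ks (L w.2) - kr M r (k₂ w))) := by ring
      rw [e]
      refine (abs_sub _ _).trans (add_le_add_right (abs_sub _ _) _)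
    have g2 : |kr M r (k₂ w) - kr M r (k₁ w)| ≤ |ks (L w.2) - ks (L w.1)| +
        (|ks (L w.1) - kr M r (k₁ w)| + |ks (L w.2) - kr M r (k₂ w)|) := by
      have e : kr M r (k₂ w) - kr M r (k₁ w) = (ks (L w.2) - ks (L w.1)) +
        ((ks (L w.1) - kr M r (k₁ w)) - (ks (L w.2) - kr M r (k₂ w))) := by ring
      rw [e]
      refine (abs_add_le _ _).trans (add_le_add_right (abs_sub _ _) _)
    have g3 := mul_le_mul_of_nonneg_right g1 hM0.le
    have g4 := mul_le_mul_of_nonneg_right g2 hM0.le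
    constructor
    · linarith
    · linarith
  have hlf : ∀ w, 0 < Q w →
      ((c₁ w : ℝ) * r ≤ (Nn w : ℝ) - kr M r (k₁ w) * ((U w % (M : ℤ) : ℤ) : ℝ) ∧
        (Nn w : ℝ) - kr M r (k₁ w) * ((U w % (M : ℤ) : ℤ) : ℝ) ≤ (c₁ w : ℝ) * r + r) ∧
      ((c₂ w : ℝ) * r ≤ (Nn w : ℝ) - kr M r (k₂ w) * ((U w % (M : ℤ) : ℤ) : ℝ) ∧
        (Nn w : ℝ) - kr M r (k₂ w) * ((U w % (M : ℤ) : ℤ) : ℝ) ≤ (c₂ w : ℝ) * r + r) := by
    intro w _
    rw [hc₁, hc₂]
    exact ⟨lc_bd hr _ _ _, lc_bd hr _ _ _⟩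
  have hmod : ∀ w w', um w = um w' → ((U w % (M : ℤ) : ℤ) : ℝ) - ((U w' % (M : ℤ) : ℤ) : ℝ) =
      (U w : ℝ) - U w' := by
    intro w w' h
    rw [hum] at h
    dsimp only at h
    rw [mod_eq, mod_eq, h]
    ring
  have habs : ∀ w, |((U w % (M : ℤ) : ℤ) : ℝ)| ≤ M := fun w => mod_abs hM (U w)
  -- step 1: the position on both leaves
  have s1 : CH Q U (fun w => ((c₂ w, k₂ w), ((c₁ w, k₁ w), (um w, Zc w)))) ≤
      Real.log (8 * r * M / V + 1) := by
    refine CH_int_const hQl _ _ (B := 4 * r * M / V) ?_ (le_of_eq (by ring)) (by positivity)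
    intro w w' hw hw' hz
    have z1 := Prod.ext_iff.mp hz
    have z2 := Prod.ext_iff.mp z1.1
    have z3 := Prod.ext_iff.mp z1.2
    have z4 := Prod.ext_iff.mp z3.1
    have z5 := Prod.ext_iff.mp z3.2
    have y1 : c₂ w = c₂ w' := z2.1
    have y2 : k₂ w = k₂ w' := z2.2
    have y3 : c₁ w = c₁ w' := z4.1
    have y4 : k₁ w = k₁ w' := z4.2
    have y5 : um w = um w' := z5.1
    obtain ⟨⟨a1, a2⟩, a3, a4⟩ := hlf w hw
    obtain ⟨⟨b1, b2⟩, b3, b4⟩ := hlf w' hw'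
    rw [← y1, ← y2] at b3 b4
    rw [← y3, ← y4] at b1 b2
    obtain ⟨g1, -⟩ := hone w hw
    have hm' := hmod w w' y5
    obtain ⟨a, ha⟩ : ∃ a, a = ((U w % (M : ℤ) : ℤ) : ℝ) := ⟨_, rfl⟩
    obtain ⟨a', ha'⟩ : ∃ a', a' = ((U w' % (M : ℤ) : ℤ) : ℝ) := ⟨_, rfl⟩
    rw [← ha] at a1 a2 a3 a4 hm'
    rw [← ha'] at b1 b2 b3 b4 hm'
    have f1 : |(kr M r (k₂ w) - kr M r (k₁ w)) * (a - a')| ≤ 2 * r := by
      rw [abs_le]
      constructor <;> nlinarith
    rw [abs_mul] at f1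
    push_cast
    rw [← hm', le_div_iff₀ hV0]
    have f2 : V / 2 * |a - a'| ≤ |kr M r (k₂ w) - kr M r (k₁ w)| * M * |a - a'| :=
      mul_le_mul_of_nonneg_right g1 (abs_nonneg _)
    have f3 := mul_le_mul_of_nonneg_right f1 hM0.le
    nlinarith
  -- step 2: the strip given the first leaf
  have s2 : CH Q (fun w => (Y w, tt w)) (fun w => ((c₁ w, k₁ w), (um w, Zc w))) ≤
      Real.log 15 + Real.log 19 := by
    have g1 := CH_chain hQ0 Y tt (fun w => ((c₁ w, k₁ w), (um w, Zc w)))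
    have g2 : CH Q tt (fun w => ((c₁ w, k₁ w), (um w, Zc w))) ≤ Real.log 15 := by
      refine CH_int_const hQl _ _ (B := 7) ?_ (by norm_num) (by norm_num)
      intro w w' hw hw' hz
      have y4 : k₁ w = k₁ w' := (Prod.ext_iff.mp (Prod.ext_iff.mp hz).1).2
      obtain ⟨-, a2⟩ := hone w hw
      obtain ⟨-, b2⟩ := hone w' hw'
      rw [← y4] at b2
      rw [htt]
      dsimp only
      unfold Pool.PR46.kt
      refine (floor_diff (B := 6) ?_).trans (by norm_num)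
      rw [← sub_div, ← sub_mul, abs_div, abs_of_pos hm0, div_le_iff₀ hm0, abs_mul,
        abs_of_pos hM0]
      have e : kr M r (k₂ w) - kr M r (k₂ w') = (kr M r (k₂ w) - kr M r (k₁ w)) -
        (kr M r (k₂ w') - kr M r (k₁ w)) := by ring
      rw [e]
      have := abs_sub (kr M r (k₂ w) - kr M r (k₁ w)) (kr M r (k₂ w') - kr M r (k₁ w))
      nlinarith
    have g3 : CH Q Y (fun w => (tt w, ((c₁ w, k₁ w), (um w, Zc w)))) ≤ Real.log 19 := by
      refine CH_int_const hQl _ _ (B := 9) ?_ (by norm_num) (by norm_num)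
      intro w w' hw hw' hz
      have z := Prod.ext_iff.mp (Prod.ext_iff.mp (Prod.ext_iff.mp hz).2).1
      have y3 : c₁ w = c₁ w' := z.1
      have hcc : ∀ w, 0 < Q w → |(c₂ w : ℝ) * r - (c₁ w : ℝ) * r| ≤ 4 * m := by
        intro w hw
        obtain ⟨⟨a1, a2⟩, a3, a4⟩ := hlf w hw
        obtain ⟨-, g⟩ := hone w hw
        have hx := habs w
        obtain ⟨a, ha⟩ : ∃ a, a = ((U w % (M : ℤ) : ℤ) : ℝ) := ⟨_, rfl⟩
        rw [← ha] at a1 a2 a3 a4 hx
        have f1 : |(kr M r (k₂ w) - kr M r (k₁ w)) * a| ≤ 3 * m := by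
          rw [abs_mul]
          exact (mul_le_mul_of_nonneg_left hx (abs_nonneg _)).trans g
        obtain ⟨f2, f3⟩ := abs_le.mp f1
        rw [abs_le]
        constructor <;> nlinarith
      have a1 := hcc w hw
      have a2 := hcc w' hw'
      rw [← y3] at a2
      rw [hY]
      dsimp only
      refine (ediv_diff hm1 (c₂ w * r) (c₂ w' * r)).trans ?_
      have a3 : |((c₂ w * r : ℤ) : ℝ) - ((c₂ w' * r : ℤ) : ℝ)| ≤ 8 * m := by
        push_cast
        have e : (c₂ w : ℝ) * r - (c₂ w' : ℝ) * r = ((c₂ w : ℝ) * r - (c₁ w : ℝ) * r) -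
          ((c₂ w' : ℝ) * r - (c₁ w : ℝ) * r) := by ring
        rw [e]
        have := abs_sub ((c₂ w : ℝ) * r - (c₁ w : ℝ) * r) ((c₂ w' : ℝ) * r - (c₁ w : ℝ) * r)
        linarith
      have a4 : |((c₂ w * r : ℤ) : ℝ) - ((c₂ w' * r : ℤ) : ℝ)| / m ≤ 8 := by
        rw [div_le_iff₀ hm0]
        exact a3
      linarith
    linarith
  -- the codes of the leaves
  have hL1 : ∀ w, leaf M r L t u n ks w.1 = (k₁ w, c₁ w) := by
    intro w
    rw [hc₁, hk₁, hU, hNn]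
    rfl
  have hL2 : ∀ w, 0 < Q w → leaf M r L t u n ks w.2 = (k₂ w, c₂ w) := by
    intro w hw
    obtain ⟨-, -, -, a4, a5, -, -⟩ := hsup w hw
    unfold leaf
    rw [← a4, ← a5, hc₂, hk₂, hU, hNn]
  have hden₁ : ∀ ω, q₁ ω ≤ R * p ω := fun ω =>
    (hq₁2 ω).trans (mul_le_mul_of_nonneg_right hR₁R (h0 ω))
  have hden : ∀ ω, q₂ ω ≤ R * p ω := fun ω =>
    (hq₂2 ω).trans (mul_le_mul_of_nonneg_right hR₁R (h0 ω))
  -- step 3: the height given the leaves
  have hU1 : Real.log (2 * M + 1) - e₁ ≤ CH Q U (fun w => ((c₁ w, k₁ w), (um w, Zc w))) := by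
    have g1 := lf q₁ hq₁1 hden₁
    rw [← hq₁3.CH (fun ω => u (L ω) (t ω)) (VV M r L t C (fun _ => ()) u n ks)] at g1
    refine g1.trans ?_
    have hU' : CH Q (fun w => u (L w.1) (t w.1)) (fun w => VV M r L t C (fun _ => ()) u n ks w.1) =
        CH Q U (fun w => VV M r L t C (fun _ => ()) u n ks w.1) := by
      rw [hU]
    rw [hU']
    refine CH_mono_cond hQ0 fun w w' hw hw' hz => ?_
    have z1 := Prod.ext_iff.mp hz
    have z2 := Prod.ext_iff.mp z1.2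
    have z3 := Prod.ext_iff.mp z2.2
    have y1 : u (L w.1) (t w.1) / (M : ℤ) = u (L w'.1) (t w'.1) / (M : ℤ) := z1.1
    have y2 : leaf M r L t u n ks w.1 = leaf M r L t u n ks w'.1 := z2.1
    have y3 : t w.1 = t w'.1 := z3.1
    have y4 : C (L w.1) = C (L w'.1) := (Prod.ext_iff.mp z3.2).1
    rw [hL1, hL1] at y2
    have y6 := Prod.ext_iff.mp y2
    refine Prod.ext (Prod.ext y6.2 y6.1) (Prod.ext ?_ ?_)
    · show um w = um w'
      rw [hum, hU]
      exact y1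
    · show Zc w = Zc w'
      rw [hZc]
      exact Prod.ext y3 y4
  have hU1' : Real.log (2 * M + 1) - e₁ - (Real.log 15 + Real.log 19) ≤
      CH Q U (fun w => ((c₁ w, k₁ w), ((Y w, tt w), (um w, Zc w)))) := by
    have g1 := CH_le_add hQ0 U (fun w => (Y w, tt w)) (fun w => ((c₁ w, k₁ w), (um w, Zc w)))
    have g2 : CH Q U (fun w => ((Y w, tt w), ((c₁ w, k₁ w), (um w, Zc w)))) ≤
        CH Q U (fun w => ((c₁ w, k₁ w), ((Y w, tt w), (um w, Zc w)))) :=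
      CH_mono_cond hQ0 fun w w' _ _ hz => by
        have z := Prod.ext_iff.mp hz
        have z1 := Prod.ext_iff.mp z.2
        exact Prod.ext z1.1 (Prod.ext z.1 z1.2)
    linarith
  have hU2 : Real.log (2 * M + 1) - e₁ ≤
      CH Q U (fun w => ((c₂ w, k₂ w), ((Y w, tt w), (um w, Zc w)))) := by
    have g1 := lf q₂ hq₂1 hden
    rw [← hq₂3.CH (fun ω => u (L ω) (t ω)) (VV M r L t C (fun _ => ()) u n ks)] at g1
    refine g1.trans ?_
    have hU' : CH Q (fun w => u (L w.2) (t w.2)) (fun w => VV M r L t C (fun _ => ()) u n ks w.2) =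
        CH Q U (fun w => VV M r L t C (fun _ => ()) u n ks w.2) := by
      refine CH_eq_on hQ0 (fun w hw => ?_) fun _ _ => rfl
      obtain ⟨-, -, -, a4, -, -, -⟩ := hsup w hw
      rw [hU]
      exact a4.symm
    rw [hU']
    refine CH_mono_cond hQ0 fun w w' hw hw' hz => ?_
    obtain ⟨-, -, a3, a4, -, -, -⟩ := hsup w hw
    obtain ⟨-, -, b3, b4, -, -, -⟩ := hsup w' hw'
    have z1 := Prod.ext_iff.mp hz
    have z2 := Prod.ext_iff.mp z1.2
    have z3 := Prod.ext_iff.mp z2.2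
    have y1 : u (L w.2) (t w.2) / (M : ℤ) = u (L w'.2) (t w'.2) / (M : ℤ) := z1.1
    have y2 : leaf M r L t u n ks w.2 = leaf M r L t u n ks w'.2 := z2.1
    have y3 : t w.2 = t w'.2 := z3.1
    have y4 : C (L w.2) = C (L w'.2) := (Prod.ext_iff.mp z3.2).1
    rw [hL2 w hw, hL2 w' hw'] at y2
    have y6 := Prod.ext_iff.mp y2
    have y7 : k₂ w = k₂ w' := y6.1
    have y8 : c₂ w = c₂ w' := y6.2
    refine Prod.ext (Prod.ext y8 y7) (Prod.ext (Prod.ext ?_ ?_) (Prod.ext ?_ ?_))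
    · show Y w = Y w'
      rw [hY]
      dsimp only
      rw [y8]
    · show tt w = tt w'
      rw [htt]
      dsimp only
      rw [y7]
    · show um w = um w'
      rw [hum, hU]
      dsimp only
      rw [a4, b4]
      exact y1
    · show Zc w = Zc w'
      rw [hZc]
      exact Prod.ext (a3.1.trans (y3.trans b3.1.symm)) (a3.2.trans (y4.trans b3.2.symm))
  -- step 4: the two leaves are independent given the position
  have s4 : CH Q (fun w => (c₁ w, k₁ w)) (fun w => ((U w, Nn w), ((Y w, tt w), (um w, Zc w)))) -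
      R₁ * Real.log 2 ≤ CH Q (fun w => (c₁ w, k₁ w)) (fun w => ((c₂ w, k₂ w),
        ((U w, Nn w), ((Y w, tt w), (um w, Zc w))))) := by
    obtain ⟨X₁, hX₁⟩ : ∃ X₁ : Ω → ℤ × ℤ, X₁ = fun ω => (lc M r (kq M r (ks (L ω)))
      (u (L ω) (t ω)) (n (L ω) (t ω)), kq M r (ks (L ω))) := ⟨_, rfl⟩
    have hX : (fun w => (c₁ w, k₁ w)) = fun w => X₁ w.1 := by
      funext w
      rw [hX₁, hc₁, hk₁, hU, hNn]
    rw [hX]
    have hsw := mi_ev hPl hR₁ hcon (fun w => X₁ w.1) (fun w => w.2) (fun w => F w.2)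
      (fun w w' _ _ e => by
        have e' : w.2 = w'.2 := e
        show F w.2 = F w'.2
        rw [e'])
    rw [← hQ] at hsw
    have g1 : CH P (fun w => X₁ w.1) (fun w => F w.2) = CH p X₁ F := by
      rw [← hP1.CH X₁ F]
      refine CH_eq_on hPl.nonneg (fun _ _ => rfl) fun w hw => ?_
      rw [hP] at hw
      exact (P1_pos hp F hw).2.2.symm
    have g2 : CH p X₁ F ≤ CH P (fun w => X₁ w.1) (fun w => w.2) := by
      -- by the symmetry of the glued law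
      have hs : ∀ w : Ω × Ω, P w.swap = P w := fun w => by
        rw [hP]
        exact glue_swap p F w
      have a1 : CH P (fun w => X₁ w.1) (fun w => w.2) = CH P (fun w => X₁ w.2) (fun w => w.1) :=
        (marg_of_equiv (q := P) (r := P) (Equiv.prodComm Ω Ω) (fun w => (hs w).symm)).CH
          (fun w => X₁ w.2) (fun w => w.1)
      have a2 : CH P (fun w => X₁ w.2) (fun w => (F w.2, w.1)) = CH p X₁ F := by
        rw [hP]
        exact CH_glue_snd h0 h0 (fun _ => rfl) X₁ (Y := F) (fun w => w) (fun _ _ _ _ h => h)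
      have a3 : CH P (fun w => X₁ w.2) (fun w => (F w.2, w.1)) ≤
          CH P (fun w => X₁ w.2) (fun w => w.1) :=
        CH_mono_cond hPl.nonneg fun w w' _ _ hz => (Prod.ext_iff.mp hz).2
      linarith
    have g3 : CH Q (fun w => X₁ w.1) (fun w => ((U w, Nn w), ((Y w, tt w), (um w, Zc w)))) ≤
        CH Q (fun w => X₁ w.1) (fun w => F w.2) := by
      refine CH_mono_cond hQ0 fun w w' hw hw' hz => ?_
      obtain ⟨-, -, a3, a4, a5, -, -⟩ := hsup w hw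
      obtain ⟨-, -, b3, b4, b5, -, -⟩ := hsup w' hw'
      have z := Prod.ext_iff.mp hz
      have z1 := Prod.ext_iff.mp z.1
      have z2 := Prod.ext_iff.mp (Prod.ext_iff.mp z.2).2
      have y1 : U w = U w' := z1.1
      have y2 : Nn w = Nn w' := z1.2
      have y3 : Zc w = Zc w' := z2.2
      rw [hZc] at y3
      rw [hU] at y1
      rw [hNn] at y2
      dsimp only at y1 y2
      have y4 := Prod.ext_iff.mp y3
      have y5 : t w.1 = t w'.1 := y4.1
      have y6 : C (L w.1) = C (L w'.1) := y4.2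
      show F w.2 = F w'.2
      rw [hF]
      refine Prod.ext (Prod.ext ?_ ?_) (Prod.ext ?_ ?_)
      · exact a3.1.symm.trans (y5.trans b3.1)
      · exact a3.2.symm.trans (y6.trans b3.2)
      · exact a4.symm.trans (y1.trans b4)
      · exact a5.symm.trans (y2.trans b5)
    have g4 : CH Q (fun w => X₁ w.1) (fun w => w.2) ≤ CH Q (fun w => X₁ w.1)
        (fun w => ((c₂ w, k₂ w), ((U w, Nn w), ((Y w, tt w), (um w, Zc w))))) := by
      refine CH_mono_cond hQ0 fun w w' hw hw' hz => ?_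
      have e' : w.2 = w'.2 := hz
      obtain ⟨-, -, a3, a4, a5, -, -⟩ := hsup w hw
      obtain ⟨-, -, b3, b4, b5, -, -⟩ := hsup w' hw'
      have y1 : U w = U w' := by
        rw [hU]
        dsimp only
        rw [a4, b4, e']
      have y2 : Nn w = Nn w' := by
        rw [hNn]
        dsimp only
        rw [a5, b5, e']
      have y3 : k₂ w = k₂ w' := by
        rw [hk₂]
        dsimp only
        rw [e']
      have y4 : c₂ w = c₂ w' := by
        rw [hc₂]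
        dsimp only
        rw [y1, y2, y3]
      have y5 : Zc w = Zc w' := by
        rw [hZc]
        dsimp only
        rw [a3.1, a3.2, b3.1, b3.2, e']
      have y6 : Y w = Y w' := by
        rw [hY]
        dsimp only
        rw [y4]
      have y7 : tt w = tt w' := by
        rw [htt]
        dsimp only
        rw [y3]
      have y8 : um w = um w' := by
        rw [hum]
        dsimp only
        rw [y1]
      exact Prod.ext (Prod.ext y4 y3) (Prod.ext (Prod.ext y1 y2) (Prod.ext (Prod.ext y6 y7)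
        (Prod.ext y8 y5)))
    have g5 : R₁ * (CH P (fun w => X₁ w.1) (fun w => F w.2) -
        CH P (fun w => X₁ w.1) (fun w => w.2) + Real.log 2) ≤ R₁ * (Real.log 2) :=
      mul_le_mul_of_nonneg_left (by linarith) hR₁.le
    linarith
  -- step 5: the position given the leaf
  have hN1 : CH Q Nn (fun w => (U w, ((c₂ w, k₂ w), ((c₁ w, k₁ w), ((Y w, tt w),
      (um w, Zc w)))))) ≤ Real.log (4 * r) := by
    refine CH_int_const hQl _ _ (B := r) ?_ (by linarith) hr0.le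
    intro w w' hw hw' hz
    have z := Prod.ext_iff.mp hz
    have z1 := Prod.ext_iff.mp (Prod.ext_iff.mp z.2).1
    have y1 : U w = U w' := z.1
    have y2 : c₂ w = c₂ w' := z1.1
    have y3 : k₂ w = k₂ w' := z1.2
    obtain ⟨-, a3, a4⟩ := hlf w hw
    obtain ⟨-, b3, b4⟩ := hlf w' hw'
    rw [← y1, ← y2, ← y3] at b3 b4
    push_cast
    rw [abs_le]
    constructor <;> linarith
  -- step 6: the upper bound
  have s5 : CH Q (fun w => Nn w / (m : ℤ)) (fun w => (U w, ((Y w, tt w), (um w, Zc w)))) ≤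
      Real.log 9 := by
    refine CH_int_const hQl _ _ (B := 4) ?_ (by norm_num) (by norm_num)
    intro w w' hw hw' hz
    have z := Prod.ext_iff.mp hz
    have z1 := Prod.ext_iff.mp (Prod.ext_iff.mp z.2).1
    have y1 : U w = U w' := z.1
    have y2 : Y w = Y w' := z1.1
    have y3 : tt w = tt w' := z1.2
    obtain ⟨-, a3, a4⟩ := hlf w hw
    obtain ⟨-, b3, b4⟩ := hlf w' hw'
    rw [← y1] at b3 b4
    have hx := habs w
    have hx0 : (0 : ℝ) ≤ ((U w % (M : ℤ) : ℤ) : ℝ) := by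
      have hM0' : (0 : ℤ) < M := by exact_mod_cast hM
      exact_mod_cast Int.emod_nonneg (U w) hM0'.ne'
    obtain ⟨a, ha⟩ : ∃ a, a = ((U w % (M : ℤ) : ℤ) : ℝ) := ⟨_, rfl⟩
    rw [← ha] at a3 a4 b3 b4 hx hx0
    -- the strips
    have e2 : ∀ w, ((Y w : ℤ) : ℝ) * m ≤ (c₂ w : ℝ) * r ∧ (c₂ w : ℝ) * r ≤ (Y w : ℝ) * m + m := by
      intro w
      have hmz : (0 : ℤ) < m := by exact_mod_cast hm1
      have h1 := Int.ediv_mul_le (c₂ w * r) hmz.ne'
      have h2 := Int.lt_ediv_add_one_mul_self (c₂ w * r) hmz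
      rw [hY]
      dsimp only
      constructor
      · have h3 : (((c₂ w * r) / (m : ℤ) * m : ℤ) : ℝ) ≤ ((c₂ w * r : ℤ) : ℝ) := by exact_mod_cast h1
        push_cast at h3 ⊢
        exact h3
      · have h3 : ((c₂ w * r : ℤ) : ℝ) ≤ (((c₂ w * r / (m : ℤ) + 1) * m : ℤ) : ℝ) := by
          exact_mod_cast h2.le
        push_cast at h3 ⊢
        linarith
    have e3 : ∀ w, (tt w : ℝ) * m ≤ kr M r (k₂ w) * M ∧ kr M r (k₂ w) * M ≤ (tt w : ℝ) * m + m := by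
      intro w
      rw [htt]
      dsimp only
      unfold Pool.PR46.kt
      have h1 := Int.floor_le (kr M r (k₂ w) * M / m)
      have h2 := (Int.lt_floor_add_one (kr M r (k₂ w) * M / m)).le
      have e : kr M r (k₂ w) * M = kr M r (k₂ w) * M / m * m := by field_simp
      constructor
      · calc _ ≤ kr M r (k₂ w) * M / m * m := mul_le_mul_of_nonneg_right h1 hm0.le
          _ = _ := e.symm
      · calc _ = kr M r (k₂ w) * M / m * m := e
          _ ≤ ((⌊kr M r (k₂ w) * M / m⌋ : ℝ) + 1) * m := mul_le_mul_of_nonneg_right h2 hm0.le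
          _ = _ := by ring
    obtain ⟨f1, f2⟩ := e2 w
    obtain ⟨f3, f4⟩ := e2 w'
    obtain ⟨f5, f6⟩ := e3 w
    obtain ⟨f7, f8⟩ := e3 w'
    rw [← y2] at f3 f4
    rw [← y3] at f7 f8
    have ha1 : a ≤ M := (abs_le.mp hx).2
    -- the slopes times the position
    have f9 : |(kr M r (k₂ w) - kr M r (k₂ w')) * a| ≤ m := by
      rw [abs_mul]
      have h1 : |kr M r (k₂ w) - kr M r (k₂ w')| * M ≤ m := by
        have h2 : |(kr M r (k₂ w) - kr M r (k₂ w')) * M| ≤ m := by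
          rw [abs_le]
          constructor <;> nlinarith
        rwa [abs_mul, abs_of_pos hM0] at h2
      refine le_trans (mul_le_mul_of_nonneg_left hx (abs_nonneg _)) h1
    obtain ⟨f10, f11⟩ := abs_le.mp f9
    refine (ediv_diff hm1 (Nn w) (Nn w')).trans ?_
    have f12 : |(Nn w : ℝ) - Nn w'| ≤ 3 * m := by
      rw [abs_le]
      constructor <;> nlinarith
    have f13 : |(Nn w : ℝ) - Nn w'| / m ≤ 3 := by
      rw [div_le_iff₀ hm0]
      exact f12
    linarith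
  have s6 : CH Q Nn (fun w => (Nn w / (m : ℤ), (U w, ((Y w, tt w), (um w, Zc w))))) ≤ Um := by
    have g1 : CH Q Nn (fun w => (Nn w / (m : ℤ), (U w, ((Y w, tt w), (um w, Zc w))))) =
        CH Q (fun w => n (L w.2) (t w.2)) (fun w => (Nn w / (m : ℤ), (U w, ((Y w, tt w),
          (um w, Zc w))))) := by
      refine CH_eq_on hQ0 (fun w hw => ?_) fun _ _ => rfl
      obtain ⟨-, -, -, -, a5, -, -⟩ := hsup w hw
      rw [hNn]
      exact a5
    rw [g1]
    refine le_trans (CH_mono_cond hQ0 (W := fun w : Ω × Ω => ((n (L w.2) (t w.2) / (m : ℤ),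
      u (L w.2) (t w.2)), (t w.2, C (L w.2)))) fun w w' hw hw' hz => ?_) ?_
    · obtain ⟨-, a2, a3, a4, a5, -, -⟩ := hsup w hw
      obtain ⟨-, b2, b3, b4, b5, -, -⟩ := hsup w' hw'
      have z := Prod.ext_iff.mp hz
      have z1 := Prod.ext_iff.mp z.2
      have z2 := Prod.ext_iff.mp z1.2
      have z3 := Prod.ext_iff.mp z2.2
      have y0 : Nn w / (m : ℤ) = Nn w' / (m : ℤ) := z.1
      have y1 : U w = U w' := z1.1
      have y3 : Zc w = Zc w' := z3.2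
      rw [hZc] at y3
      rw [hU] at y1
      rw [hNn] at y0
      have z4 := Prod.ext_iff.mp y3
      have x1 : t w.1 = t w'.1 := z4.1
      have x2 : C (L w.1) = C (L w'.1) := z4.2
      dsimp only at y1 y0
      rw [a5, b5] at y0
      rw [a4, b4] at y1
      exact Prod.ext (Prod.ext y0 y1) (Prod.ext (a3.1.symm.trans (x1.trans b3.1))
        (a3.2.symm.trans (x2.trans b3.2)))
    · rw [hq₂3.CH (fun ω => n (L ω) (t ω)) (fun ω => ((n (L ω) (t ω) / (m : ℤ), u (L ω) (t ω)),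
        (t ω, C (L ω))))]
      exact hnf q₂ hq₂1 hden
  have s7 : CH Q U (fun w => ((Y w, tt w), (um w, Zc w))) ≤ Real.log (2 * M + 1) := by
    refine CH_int_const hQl _ _ (B := M) ?_ le_rfl hM0.le
    intro w w' hw hw' hz
    have z := Prod.ext_iff.mp (Prod.ext_iff.mp hz).2
    have y1 : um w = um w' := z.1
    have h1 := hmod w w' y1
    push_cast
    rw [← h1]
    have hM0' : (0 : ℤ) < M := by exact_mod_cast hM
    have b1 : (0 : ℝ) ≤ ((U w % (M : ℤ) : ℤ) : ℝ) := by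
      exact_mod_cast Int.emod_nonneg (U w) hM0'.ne'
    have b2 : (0 : ℝ) ≤ ((U w' % (M : ℤ) : ℤ) : ℝ) := by
      exact_mod_cast Int.emod_nonneg (U w') hM0'.ne'
    have b3 := (abs_le.mp (habs w)).2
    have b4 := (abs_le.mp (habs w')).2
    rw [abs_le]
    constructor <;> linarith
  -- together
  obtain ⟨K, hK⟩ : ∃ K : Ω × Ω → (ℤ × ℤ) × (ℤ × (ℤ × 𝒞)), K = fun w => ((Y w, tt w),
    (um w, Zc w)) := ⟨_, rfl⟩
  obtain ⟨ℓ₁, hℓ₁⟩ : ∃ ℓ : Ω × Ω → ℤ × ℤ, ℓ = fun w => (c₁ w, k₁ w) := ⟨_, rfl⟩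
  obtain ⟨ℓ₂, hℓ₂⟩ : ∃ ℓ : Ω × Ω → ℤ × ℤ, ℓ = fun w => (c₂ w, k₂ w) := ⟨_, rfl⟩
  obtain ⟨Po, hPo⟩ : ∃ Po : Ω × Ω → ℤ × ℤ, Po = fun w => (U w, Nn w) := ⟨_, rfl⟩
  -- (1) the position
  have f1 : CH Q Po K ≤ Real.log (2 * M + 1) + Real.log 9 + Um := by
    have t4 := CH_chain2 hQ0 U Nn K
    have t5 := CH_le_add hQ0 Nn (fun w => Nn w / (m : ℤ)) (fun w => (U w, K w))
    rw [hPo]
    rw [hK] at t4 t5 ⊢
    linarith
  -- (2) the leaves given the position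
  have f2 : CH Q ℓ₂ K + (Real.log (2 * M + 1) - e₁) - CH Q Po K ≤
      CH Q ℓ₂ (fun w => (Po w, K w)) := by
    have a1 := CH_chain hQ0 ℓ₂ Po K
    have a2 := CH_chain hQ0 Po ℓ₂ K
    have a3 : CH Q (fun w => (Po w, ℓ₂ w)) K = CH Q (fun w => (ℓ₂ w, Po w)) K :=
      CH_swap2 hQ0 Po ℓ₂ K
    have a4 : CH Q U (fun w => (ℓ₂ w, K w)) ≤ CH Q Po (fun w => (ℓ₂ w, K w)) :=
      CH_mono_left hQ0 fun w w' _ _ hz => by
        rw [hPo] at hz
        exact (Prod.ext_iff.mp (Prod.ext_iff.mp hz).1).1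
    have a5 : CH Q U (fun w => (ℓ₂ w, K w)) =
        CH Q U (fun w => ((c₂ w, k₂ w), ((Y w, tt w), (um w, Zc w)))) := by rw [hℓ₂, hK]
    linarith
  have f3 : CH Q ℓ₁ K + (Real.log (2 * M + 1) - e₁ - (Real.log 15 + Real.log 19)) - CH Q Po K ≤
      CH Q ℓ₁ (fun w => (Po w, K w)) := by
    have a1 := CH_chain hQ0 ℓ₁ Po K
    have a2 := CH_chain hQ0 Po ℓ₁ K
    have a3 : CH Q (fun w => (Po w, ℓ₁ w)) K = CH Q (fun w => (ℓ₁ w, Po w)) K :=
      CH_swap2 hQ0 Po ℓ₁ K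
    have a4 : CH Q U (fun w => (ℓ₁ w, K w)) ≤ CH Q Po (fun w => (ℓ₁ w, K w)) :=
      CH_mono_left hQ0 fun w w' _ _ hz => by
        rw [hPo] at hz
        exact (Prod.ext_iff.mp (Prod.ext_iff.mp hz).1).1
    have a5 : CH Q U (fun w => (ℓ₁ w, K w)) =
        CH Q U (fun w => ((c₁ w, k₁ w), ((Y w, tt w), (um w, Zc w)))) := by rw [hℓ₁, hK]
    linarith
  have f4 : CH Q ℓ₁ (fun w => (Po w, K w)) - R₁ * Real.log 2 ≤
      CH Q ℓ₁ (fun w => (ℓ₂ w, (Po w, K w))) := by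
    rw [hℓ₁, hℓ₂, hPo, hK]
    exact s4
  -- (3) the sum from below
  have g1 := CH_chain hQ0 (fun w => (ℓ₁ w, ℓ₂ w)) Po K
  have g2 := CH_chain hQ0 ℓ₁ ℓ₂ (fun w => (Po w, K w))
  -- (4) the sum from above
  have g3 := CH_chain hQ0 Po (fun w => (ℓ₁ w, ℓ₂ w)) K
  have g4 : CH Q (fun w => ((ℓ₁ w, ℓ₂ w), Po w)) K = CH Q (fun w => (Po w, (ℓ₁ w, ℓ₂ w))) K :=
    CH_swap2 hQ0 (fun w => (ℓ₁ w, ℓ₂ w)) Po K
  have g5 := CH_chain hQ0 ℓ₁ ℓ₂ K
  have g6 : CH Q ℓ₁ (fun w => (ℓ₂ w, K w)) ≤ CH Q ℓ₁ K :=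
    CH_mono_cond hQ0 fun w w' _ _ hz => (Prod.ext_iff.mp hz).2
  have g7 : CH Q Po (fun w => ((ℓ₁ w, ℓ₂ w), K w)) ≤
      Real.log (8 * r * M / V + 1) + Real.log (4 * r) := by
    have b1 := CH_chain2 hQ0 U Nn (fun w => ((ℓ₁ w, ℓ₂ w), K w))
    have b2 : CH Q U (fun w => ((ℓ₁ w, ℓ₂ w), K w)) ≤ Real.log (8 * r * M / V + 1) := by
      refine (CH_mono_cond hQ0 fun w w' _ _ hz => ?_).trans s1
      have z := Prod.ext_iff.mp hz
      have z1 := Prod.ext_iff.mp z.1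
      rw [hℓ₁, hℓ₂, hK] at *
      have z2 := Prod.ext_iff.mp z.2
      exact Prod.ext z1.2 (Prod.ext z1.1 z2.2)
    have b3 : CH Q Nn (fun w => (U w, ((ℓ₁ w, ℓ₂ w), K w))) ≤ Real.log (4 * r) := by
      refine (CH_mono_cond hQ0 fun w w' _ _ hz => ?_).trans hN1
      have z := Prod.ext_iff.mp hz
      have z0 := Prod.ext_iff.mp z.2
      have z1 := Prod.ext_iff.mp z0.1
      rw [hℓ₁, hℓ₂, hK] at *
      exact Prod.ext z.1 (Prod.ext z1.2 (Prod.ext z1.1 z0.2))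
    rw [hPo]
    linarith
  have hlog : Real.log 2565 = Real.log 15 + Real.log 19 + Real.log 9 := by
    rw [← Real.log_mul (by norm_num) (by norm_num), ← Real.log_mul (by norm_num) (by norm_num)]
    norm_num
  have hlog2 : 0 ≤ Real.log 285 := Real.log_nonneg (by norm_num)
  -- the number
  have hnum : Real.log V - Real.log (16 * r) ≤
      Real.log (2 * M + 1) - Real.log (8 * r * M / V + 1) := by
    rw [← Real.log_div hV0.ne' (by positivity), ← Real.log_div (by positivity) (by positivity)]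
    refine Real.log_le_log (by positivity) ?_
    rw [div_le_div_iff₀ (by positivity) (by positivity)]
    have h1 : V * (8 * r * M / V + 1) = 8 * r * M + V := by
      field_simp
    rw [h1]
    nlinarith
  linarith

end main

end Pool.PX46
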