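import Pool.Agent.H46.PX.Pla
import Pool.Agent.H46.PT.Tep

/-!
# The slope of a tie at explicit constants, without the record hypothesis

`TieP` is `TieH` without the field `gf`: the record `G` may contain digits of the line which are not
known from the position. The planar hop gives that the slope is known from context and position.
-/

set_option autoImplicit false

namespace Pool.PT46.PX

open Finset Real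
open Pool.Agent.H49.Ent Pool.Agent.H32.Dense Pool.STK Pool.OWN68 Pool.PR46 Pool.PX46
open Pool.BFL (Pb)

/-- The hypotheses for one law. The times are integers of absolute value at most `MT`, a multiple of
the size `M` of the displacements. -/
structure TieP {Ω Λ Γ₁ Γ₂ 𝒜 ℰ 𝒞 𝒟 𝒩₁ 𝒩₂ : Type} [Fintype Ω] (p : Ω → ℝ) (M MT K Q : ℕ)
    (δ c₀ h α B : ℝ) (L : Ω → Λ) (t : Ω → ℤ) (G₁ : Ω → Γ₁) (G₂ : Ω → Γ₂) (A : Ω → 𝒜)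
    (E : Ω → ℰ) (C : Λ → 𝒞) (D : Λ → 𝒟) (N₁ : Λ → 𝒩₁) (N₂ : Λ → 𝒩₂) (u n : Λ → ℤ → ℤ)
    (du dn : 𝒟 → ℝ) : Prop where
  rcs : Recs p MT (δ * Q) L t G₁ G₂ C D N₁ N₂
  d1 : Disp p M MT K L t G₁ D u n du dn
  d2 : Disp p M MT K L t G₂ D u n du dn
  al : ∀ S : Ω → Prop, c₀ ≤ Pb p S →
      α * Q ≤ CH (cond p S True) (fun ω => ⌊du (D (L ω)) / B⌋) G₂
  nf : NfE p Q δ c₀ h L t C u n
  ac : ∀ ω ω', 0 < p ω → 0 < p ω' → A ω = A ω' → E ω = E ω' → t ω = t ω' ∧ C (L ω) = C (L ω')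
  ca : ∀ ω ω', 0 < p ω → 0 < p ω' → t ω = t ω' → C (L ω) = C (L ω') → A ω = A ω' ∧ E ω = E ω'
  fm : CH p E A ≤ CH p E (FF L t A u n) + δ * Q

/-- **The slope of a tie**, at explicit constants. -/
theorem tie_core {Ω Λ Γ₁ Γ₂ 𝒜 ℰ 𝒞 𝒟 𝒩₁ 𝒩₂ : Type} [Fintype Ω] {p : Ω → ℝ} (hp : IsLaw p)
    {M F MT K Q r : ℕ} (hM : 1 ≤ M) (hF : 1 ≤ F) (hMT : MT = F * M) (hMQ : M ≤ 2 ^ Q) (hr : 1 ≤ r)
    (hrM : r ≤ M) (hQ : 3 ≤ Q)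
    {L : Ω → Λ} {t : Ω → ℤ} {G₁ : Ω → Γ₁} {G₂ : Ω → Γ₂} {A : Ω → 𝒜} {E : Ω → ℰ}
    {C : Λ → 𝒞} {D : Λ → 𝒟} {N₁ : Λ → 𝒩₁} {N₂ : Λ → 𝒩₂} {u n : Λ → ℤ → ℤ} {du dn : 𝒟 → ℝ}
    {V R e : ℝ} (hR : 0 < R) (he : 0 ≤ e) (hrec : Recs p MT e L t G₁ G₂ C D N₁ N₂)
    (hd₁ : Disp p M MT K L t G₁ D u n du dn) (hd₂ : Disp p M MT K L t G₂ D u n du dn)
    {B η₁ η : ℝ} (hB : 0 < B)
    (hal : Pb (glue p p G₂ G₂) (fun w => |du (D (L w.2)) - du (D (L w.1))| < B) ≤ η₁)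
    {J₁ : ℕ} {Va Ua : ℕ → ℝ} {ma : ℕ → ℕ} (hcel : Cells p M K V R e L t C D u n J₁ Va Ua ma)
    (hV : 0 ≤ V) (hr5 : 5 * (V * M / B ^ 2) * M ≤ r) (hη0 : 0 ≤ η)
    (hη : 7 * (J₁ / R + 2 * η₁) + 2 * η₁ ≤ η) (hrK : (K : ℝ) * (2 + M / B) ≤ r)
    {R' R₁ e₂ : ℝ} (hR' : 2 ≤ R') (hRη : R' * η ≤ 1 / 2) (hR₁ : 0 < R₁) (hR₁R : R₁ ≤ R')
    (ac : ∀ ω ω', 0 < p ω → 0 < p ω' → A ω = A ω' → E ω = E ω' →
      t ω = t ω' ∧ C (L ω) = C (L ω'))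
    (ca : ∀ ω ω', 0 < p ω → 0 < p ω' → t ω = t ω' → C (L ω) = C (L ω') →
      A ω = A ω' ∧ E ω = E ω')
    (fm : CH p E A ≤ CH p E (FF L t A u n) + e₂)
    (hκ : 2 * (M / B) ≤ 8 * r) (hκQ : M / B ≤ 2 ^ Q)
    -- the planar hop
    {Rp : ℝ} (hRp : 0 < Rp) (hRpR : Rp ≤ R') {Jp kp : ℕ} (Vp Up : ℕ → ℝ) (mp : ℕ → ℕ)
    (hmp : ∀ j < Jp, r ≤ mp j) (hVp : ∀ j < Jp, 4 * r ≤ Vp j)
    (hcop : ∀ x : ℝ, (2 : ℝ) ^ kp ≤ x → x ≤ 2 * (M / B) * M → ∃ j < Jp, Vp j ≤ x ∧ x ≤ mp j)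
    (hnfp : ∀ j < Jp, ∀ q : Ω → ℝ, IsLaw q → (∀ ω, q ω ≤ R' * p ω) →
      CH q (fun ω => n (L ω) (t ω)) (fun ω => ((n (L ω) (t ω) / (mp j : ℤ), u (L ω) (t ω)),
        (t ω, C (L ω)))) ≤ Up j)
    (hbigp : ∀ j < Jp, Up j + 2 * lsF M K B R' η e + Rp * Real.log 2 + Real.log 2565 +
      Real.log 285 + Real.log (4 * r) + Real.log (16 * r) < Real.log (Vp j))
    -- the third hop
    {J₂ : ℕ} {V₂ : ℝ} (Vs Us : ℕ → ℝ) (ms : ℕ → ℕ) (hms : ∀ j < J₂, r ≤ ms j)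
    (hVs : ∀ j < J₂, 4 * r ≤ Vs j)
    (hcov : ∀ x : ℝ, V₂ ≤ x → x ≤ 2 * (M / B) * M → ∃ j < J₂, Vs j ≤ x ∧ x ≤ ms j)
    (hnf : ∀ j < J₂, ∀ q : Ω → ℝ, IsLaw q → (∀ ω, q ω ≤ R' * p ω) →
      CH q (fun ω => n (L ω) (t ω)) (fun ω => ((n (L ω) (t ω) / (ms j : ℤ), u (L ω) (t ω)),
        (t ω, C (L ω)))) ≤ Us j)
    (hbig : ∀ j < J₂, Us j + 2 * (lsF M K B R' η e + i2 R₁ e₂) +
      R₁ * (Real.log 10 + 6 * (Jp * (1 / Rp)) * Q + (Real.log 7 + kp * Real.log 2)) +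
      Real.log 2565 + Real.log (16 * r) < Real.log (Vs j)) :
    ∃ (ks : Λ → ℝ) (kf : 𝒜 × (ℤ × ℤ) → ℝ), (∀ ω, 0 < p ω → |ks (L ω)| ≤ M / B) ∧
      (∀ ω, 0 < p ω → |kf (FF L t A u n ω)| ≤ M / B) ∧
      Pb p (fun ω => V₂ ≤ |kf (FF L t A u n ω) - ks (L ω)| * M) ≤ J₂ * (1 / R₁) ∧
      Pb (glue p p G₂ G₂) (fun w => ¬ Alg M r B L D du dn ks w) ≤ η ∧
      Pb (glue p p G₁ G₁) (Off ((V + 2 * r) * M / B) L D du dn ks) ≤ J₁ / R + η := by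
  have hrec2 : Recs p MT e L t G₂ G₂ C D N₂ N₂ :=
    ⟨hrec.tb, hrec.g2, hrec.g2, hrec.nd, hrec.full, hrec.i2, hrec.i2⟩
  have hMM : M ≤ MT := by
    rw [hMT]
    exact Nat.le_mul_of_pos_left M hF
  obtain ⟨ks, hkb, hgd⟩ := alg_tie hp hM hF hMT hR he hrec2 hd₂ hB hal hcel hV hr5
  have hgd' : Pb (glue p p G₂ G₂) (fun w => ¬ Alg M r B L D du dn ks w) ≤ η := hgd.trans hη
  have hlf : ∀ q : Ω → ℝ, IsLaw q → (∀ ω, q ω ≤ R' * p ω) → Real.log (2 * M + 1) -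
      lsF M K B R' η e ≤ CH q (fun ω => u (L ω) (t ω)) (VV M r L t C (fun _ => ()) u n ks) :=
    fun q hq hqd => leaf_t hp hM hMM hr hrM he hrec2 hd₂ hB hkb hrK hgd' hR' hRη hq hqd
  have hpl := pl_all hp hM hr hlf hRp hRpR hkb hκ Vp Up mp hmp hVp hcop hnfp hbigp
  have hkf : CH p (fun ω => kq M r (ks (L ω))) (fun ω => (FF L t A u n ω, E ω)) ≤
      Real.log 10 + 6 * (Jp * (1 / Rp)) * Q + (Real.log 7 + kp * Real.log 2) := by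
    refine pl_few hp hM hMQ hr hQ hκQ hkb hpl (by positivity) _ fun ω ω' hω hω' hz => ?_
    have z := Prod.ext_iff.mp hz
    have z1 := Prod.ext_iff.mp z.1
    have z2 := Prod.ext_iff.mp z1.2
    obtain ⟨a1, a2⟩ := ac ω ω' hω hω' z1.1 z.2
    exact Prod.ext (Prod.ext a1 a2) (Prod.ext z2.1 z2.2)
  have hthr : ThrH p M r R' (lsF M K B R' η e) e₂ (Real.log 10 + 6 * (Jp * (1 / Rp)) * Q +
      (Real.log 7 + kp * Real.log 2)) L t A E C (fun _ => ()) u n ks := by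
    refine ⟨fun ω ω' hω hω' a b => ?_, fun ω ω' hω hω' a b _ => ca ω ω' hω hω' a b, hlf, fm, hkf⟩
    obtain ⟨y1, y2⟩ := ac ω ω' hω hω' a b
    exact ⟨y1, y2, rfl⟩
  have hall := thr_all hp hM hr hthr hR₁ hR₁R hkb hκ Vs Us ms hms hVs hcov hnf hbig
  obtain ⟨kf, hf1, hf2⟩ := thr_fun hp (FF L t A u n) ks hkb hall
  exact ⟨ks, kf, hkb, hf1, hf2, hgd', par_ks hp hM hF hMT hR he hrec hd₁ hd₂ hB hgd' hcel⟩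

end Pool.PT46.PX
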